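import Pool.Agent.N973.P15.CP3

/-!
# P15: sums over the factorizations, abstract part and local factors
-/

set_option autoImplicit false

namespace Pool.Agent.N218.P15

open Finset
open Pool.Agent.N969.P15
open Pool.Agent.Z700 (hh fac)

/-- a sign -/
def Sgn (x : ℤ) : Prop := x = 1 ∨ x = -1

theorem Sgn.mul {x y : ℤ} (hx : Sgn x) (hy : Sgn y) : Sgn (x * y) := by
  rcases hx with rfl | rfl <;> rcases hy with rfl | rfl <;> simp [Sgn]

theorem Sgn.pow {x : ℤ} (hx : Sgn x) (n : ℕ) : Sgn (x ^ n) := by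
  induction n with
  | zero => left; simp
  | succ n ih => rw [pow_succ]; exact ih.mul hx

theorem Sgn.prod {S : Finset ℕ} {f : ℕ → ℤ} (h : ∀ p ∈ S, Sgn (f p)) : Sgn (∏ p ∈ S, f p) := by
  classical
  induction S using Finset.induction_on with
  | empty => left; simp
  | insert a s ha ih =>
    rw [Finset.prod_insert ha]
    exact (h a (mem_insert_self _ _)).mul (ih fun p hp => h p (mem_insert_of_mem hp))

theorem Sgn.odd {x : ℤ} (hx : Sgn x) : x % 2 = 1 := by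
  rcases hx with rfl | rfl <;> rfl

/-- the product of the local factors -/
def FF (L : Finset ℕ) (V : ℕ → ℕ) (s : ℕ → ℤ) (e : ℕ → ℕ → ℤ) (S : Finset ℕ) : ℤ :=
  ∏ l ∈ L, ∑ j ∈ range (V l + 1), (s l * ∏ p ∈ S, e l p) ^ j

/-- the twisted sum over all subsets -/
def GS (P L : Finset ℕ) (V : ℕ → ℕ) (s : ℕ → ℤ) (e : ℕ → ℕ → ℤ) (ψ : ℕ → ℤ) : ℤ :=
  ∑ S ∈ P.powerset, (∏ p ∈ S, ψ p) * FF L V s e S

theorem GS_insert (P L : Finset ℕ) (V : ℕ → ℕ) (s : ℕ → ℤ) (e : ℕ → ℕ → ℤ) (ψ : ℕ → ℤ) (l : ℕ)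
    (hl : l ∉ L) : GS P (insert l L) V s e ψ =
      ∑ j ∈ range (V l + 1), s l ^ j * GS P L V s e (fun p => ψ p * e l p ^ j) := by
  unfold GS
  simp_rw [Finset.mul_sum]
  rw [Finset.sum_comm]
  refine Finset.sum_congr rfl fun S _ => ?_
  unfold FF
  rw [Finset.prod_insert hl, Finset.sum_mul, Finset.mul_sum]
  refine Finset.sum_congr rfl fun j _ => ?_
  rw [Finset.prod_mul_distrib, Finset.prod_pow]
  ring

theorem GS_empty (P : Finset ℕ) (V : ℕ → ℕ) (s : ℕ → ℤ) (e : ℕ → ℕ → ℤ) (ψ : ℕ → ℤ) :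
    GS P ∅ V s e ψ = ∏ p ∈ P, (1 + ψ p) := by
  unfold GS FF
  rw [Finset.prod_one_add]
  simp

/-- divisibility, and independence of the signs -/
theorem abs1 (P : Finset ℕ) (V : ℕ → ℕ) (s s' : ℕ → ℤ) (e : ℕ → ℕ → ℤ) (L : Finset ℕ)
    (hs : ∀ l ∈ L, Sgn (s l)) (hs' : ∀ l ∈ L, Sgn (s' l)) (he : ∀ l ∈ L, ∀ p ∈ P, Sgn (e l p)) :
    ∀ ψ : ℕ → ℤ, (∀ p ∈ P, Sgn (ψ p)) →
    (2 : ℤ) ^ P.card ∣ GS P L V s e ψ ∧ (2 : ℤ) ^ (P.card + 1) ∣ GS P L V s e ψ - GS P L V s' e ψ := by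
  induction L using Finset.induction_on with
  | empty =>
    intro ψ hψ
    rw [GS_empty, GS_empty, sub_self]
    refine ⟨?_, dvd_zero _⟩
    rw [← Finset.prod_const]
    refine Finset.prod_dvd_prod_of_dvd _ _ fun p hp => ?_
    rcases hψ p hp with h | h <;> rw [h] <;> norm_num
  | insert l L hl ih =>
    intro ψ hψ
    have hL := ih (fun l hl => hs l (mem_insert_of_mem hl)) (fun l hl => hs' l (mem_insert_of_mem hl))
      (fun l hl => he l (mem_insert_of_mem hl))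
    have hψ' : ∀ j : ℕ, ∀ p ∈ P, Sgn (ψ p * e l p ^ j) := fun j p hp =>
      (hψ p hp).mul ((he l (mem_insert_self _ _) p hp).pow j)
    rw [GS_insert P L V s e ψ l hl, GS_insert P L V s' e ψ l hl]
    refine ⟨Finset.dvd_sum fun j _ => Dvd.dvd.mul_left (hL _ (hψ' j)).1 _, ?_⟩
    rw [← Finset.sum_sub_distrib]
    refine Finset.dvd_sum fun j _ => ?_
    obtain ⟨h1, h2⟩ := hL _ (hψ' j)
    set X := GS P L V s e (fun p => ψ p * e l p ^ j)
    set Y := GS P L V s' e (fun p => ψ p * e l p ^ j)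
    have h3 : s l ^ j * X - s' l ^ j * Y = s' l ^ j * (X - Y) + (s l ^ j - s' l ^ j) * X := by ring
    rw [h3]
    refine dvd_add (Dvd.dvd.mul_left h2 _) ?_
    have h4 : (2 : ℤ) ∣ s l ^ j - s' l ^ j := by
      have a1 := ((hs l (mem_insert_self _ _)).pow j).odd
      have a2 := ((hs' l (mem_insert_self _ _)).pow j).odd
      omega
    rw [pow_succ, mul_comm ((2:ℤ) ^ P.card) 2]
    exact mul_dvd_mul h4 h1

/-! ### characters -/

/-- the character modulo `4` -/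
def x4 (p : ℕ) : ℤ := if p % 4 = 1 then 1 else -1

/-- the character modulo `3` -/
def x3 (p : ℕ) : ℤ := if p % 3 = 1 then 1 else -1

/-- the even character modulo `8` -/
def x8 (p : ℕ) : ℤ := if p % 8 = 1 ∨ p % 8 = 7 then 1 else -1

theorem x4_sgn (p : ℕ) : Sgn (x4 p) := by
  unfold x4; split_ifs <;> simp [Sgn]

theorem x3_sgn (p : ℕ) : Sgn (x3 p) := by
  unfold x3; split_ifs <;> simp [Sgn]

theorem x8_sgn (p : ℕ) : Sgn (x8 p) := by
  unfold x8; split_ifs <;> simp [Sgn]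

theorem x4_mul {a b : ℕ} (ha : a % 2 = 1) (hb : b % 2 = 1) : x4 (a * b) = x4 a * x4 b := by
  unfold x4
  rw [Nat.mul_mod]
  have h1 : a % 4 = 1 ∨ a % 4 = 3 := by omega
  have h2 : b % 4 = 1 ∨ b % 4 = 3 := by omega
  rcases h1 with h1 | h1 <;> rcases h2 with h2 | h2 <;> rw [h1, h2] <;> norm_num

theorem x3_mul {a b : ℕ} (ha : a % 3 ≠ 0) (hb : b % 3 ≠ 0) : x3 (a * b) = x3 a * x3 b := by
  unfold x3
  rw [Nat.mul_mod]
  have h1 : a % 3 = 1 ∨ a % 3 = 2 := by omega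
  have h2 : b % 3 = 1 ∨ b % 3 = 2 := by omega
  rcases h1 with h1 | h1 <;> rcases h2 with h2 | h2 <;> rw [h1, h2] <;> norm_num

theorem x8_mul {a b : ℕ} (ha : a % 2 = 1) (hb : b % 2 = 1) : x8 (a * b) = x8 a * x8 b := by
  unfold x8
  rw [Nat.mul_mod]
  have h1 : a % 8 = 1 ∨ a % 8 = 3 ∨ a % 8 = 5 ∨ a % 8 = 7 := by omega
  have h2 : b % 8 = 1 ∨ b % 8 = 3 ∨ b % 8 = 5 ∨ b % 8 = 7 := by omega
  rcases h1 with h1 | h1 | h1 | h1 <;> rcases h2 with h2 | h2 | h2 | h2 <;> rw [h1, h2] <;> norm_num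

/-- the product of a set of primes -/
def pr (S : Finset ℕ) : ℕ := ∏ p ∈ S, p

/-- the primes allowed -/
def PP (P : Finset ℕ) : Prop := ∀ p ∈ P, p.Prime ∧ p ≠ 2 ∧ p ≠ 3 ∧ p ≠ 5

theorem PP.sub {P S : Finset ℕ} (h : PP P) (hS : S ⊆ P) : PP S := fun p hp => h p (hS hp)

theorem PP.odd {P : Finset ℕ} (h : PP P) {p : ℕ} (hp : p ∈ P) : p % 2 = 1 := by
  rcases (h p hp).1.eq_two_or_odd with h1 | h1
  · exact absurd h1 (h p hp).2.1
  · exact h1

theorem PP.three {P : Finset ℕ} (h : PP P) {p : ℕ} (hp : p ∈ P) : p % 3 ≠ 0 := by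
  intro h1
  have := (Nat.prime_dvd_prime_iff_eq Nat.prime_three (h p hp).1).1 (Nat.dvd_of_mod_eq_zero h1)
  exact (h p hp).2.2.1 this.symm

theorem pr_facts {S : Finset ℕ} (h : PP S) : pr S % 2 = 1 ∧ pr S % 3 ≠ 0 ∧
    ∏ p ∈ S, x4 p = x4 (pr S) ∧ ∏ p ∈ S, x3 p = x3 (pr S) ∧ ∏ p ∈ S, x8 p = x8 (pr S) := by
  classical
  unfold pr
  induction S using Finset.induction_on with
  | empty => simp [x4, x3, x8]
  | insert a s ha ih =>
    obtain ⟨i1, i2, i3, i4, i5⟩ := ih (h.sub (Finset.subset_insert _ _))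
    have ho := h.odd (mem_insert_self a s)
    have ht := h.three (mem_insert_self a s)
    simp only [Finset.prod_insert ha]
    rw [x4_mul ho i1, x3_mul ht i2, x8_mul ho i1, i3, i4, i5]
    refine ⟨?_, ?_, rfl, rfl, rfl⟩
    · rw [Nat.mul_mod, ho, i1]
    · rw [Nat.mul_mod]
      have h1 : a % 3 = 1 ∨ a % 3 = 2 := by omega
      have h2 : (∏ p ∈ s, p) % 3 = 1 ∨ (∏ p ∈ s, p) % 3 = 2 := by omega
      rcases h1 with h1 | h1 <;> rcases h2 with h2 | h2 <;> rw [h1, h2] <;> norm_num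

theorem pr_pos {S : Finset ℕ} (h : PP S) : 0 < pr S := by
  have := (pr_facts h).1
  omega

theorem jac_pr (S : Finset ℕ) (l : ℕ) :
    jacobiSym ((pr S : ℕ) : ℤ) l = ∏ p ∈ S, jacobiSym (p : ℤ) l := by
  classical
  unfold pr
  induction S using Finset.induction_on with
  | empty => simp
  | insert a s ha ih =>
    rw [Finset.prod_insert ha, Finset.prod_insert ha, Nat.cast_mul, jacobiSym.mul_left, ih]

theorem jac_sgn {x : ℤ} {l : ℕ} (hl : l.Prime) (h : ¬ (l : ℤ) ∣ x) : Sgn (jacobiSym x l) := by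
  have h1 : x.gcd l = 1 := by
    rw [Int.gcd_comm]
    exact (Nat.Prime.coprime_iff_not_dvd hl).2 (by
      intro h2
      exact h (Int.natCast_dvd.2 (by simpa using h2)))
  exact jacobiSym.eq_one_or_neg_one h1

/-- the local signs -/
def ee (D l p : ℕ) : ℤ := if p = l then jacobiSym ((D / l : ℕ) : ℤ) l else jacobiSym (p : ℤ) l

theorem fac_prod {P S : Finset ℕ} (hP : PP P) (hS : S ⊆ P) {t D l : ℕ} (ht : t = 1 ∨ t = 3)
    (hl : l.Prime) (h3 : l ≠ 3) (hv : l ∈ P → D.factorization l = 1) :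
    fac (t * pr S) D l = ∑ j ∈ range (D.factorization l + 1),
      (jacobiSym (-(t : ℤ)) l * ∏ p ∈ S, ee D l p) ^ j := by
  classical
  by_cases hlS : l ∈ S
  · have hdvd : l ∣ t * pr S := Dvd.dvd.mul_left (Finset.dvd_prod_of_mem _ hlS) _
    have hv1 := hv (hS hlS)
    unfold fac hh
    rw [if_pos hdvd, if_neg (by rw [hv1]; decide), hv1, pow_one]
    have h1 : t * pr S / l = t * pr (S.erase l) := by
      unfold pr
      rw [← Finset.mul_prod_erase S _ hlS]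
      rw [show t * (l * ∏ p ∈ S.erase l, p) = l * (t * ∏ p ∈ S.erase l, p) by ring]
      exact Nat.mul_div_cancel_left _ hl.pos
    rw [h1]
    have h2 : ∏ p ∈ S, ee D l p = jacobiSym ((D / l : ℕ) : ℤ) l *
        ∏ p ∈ S.erase l, jacobiSym (p : ℤ) l := by
      rw [← Finset.mul_prod_erase S _ hlS]
      congr 1
      · unfold ee; rw [if_pos rfl]
      · refine Finset.prod_congr rfl fun p hp => ?_
        unfold ee; rw [if_neg (Finset.ne_of_mem_erase hp)]
    rw [h2, Finset.sum_range_succ, Finset.sum_range_one, pow_zero, pow_one]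
    congr 1
    rw [show (-((t * pr (S.erase l) * (D / l) : ℕ) : ℤ)) =
      -(t : ℤ) * ((pr (S.erase l) : ℕ) : ℤ) * ((D / l : ℕ) : ℤ) by push_cast; ring,
      jacobiSym.mul_left, jacobiSym.mul_left, jac_pr]
    ring
  · have hnd : ¬ l ∣ t * pr S := by
      intro h
      rcases (Nat.Prime.dvd_mul hl).1 h with h | h
      · rcases ht with rfl | rfl
        · exact hl.one_lt.ne' (Nat.dvd_one.1 h)
        · exact h3 ((Nat.prime_dvd_prime_iff_eq hl Nat.prime_three).1 h)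
      · obtain ⟨p, hp, h⟩ := (Prime.dvd_finsetProd_iff hl.prime _).1 h
        have := (Nat.prime_dvd_prime_iff_eq hl (hP p (hS hp)).1).1 h
        exact hlS (this ▸ hp)
    unfold fac
    rw [if_neg hnd]
    have h2 : ∏ p ∈ S, ee D l p = ∏ p ∈ S, jacobiSym (p : ℤ) l := by
      refine Finset.prod_congr rfl fun p hp => ?_
      unfold ee; rw [if_neg (by rintro rfl; exact hlS hp)]
    rw [h2, ← jac_pr, ← jacobiSym.mul_left]
    push_cast
    refine Finset.sum_congr rfl fun j _ => ?_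
    congr 2
    ring

theorem ee_sgn {P : Finset ℕ} (hP : PP P) {D l p : ℕ} (hl : l.Prime) (hD : D ≠ 0) (hlD : l ∣ D)
    (hv : l ∈ P → D.factorization l = 1) (hp : p ∈ P) : Sgn (ee D l p) := by
  unfold ee
  split_ifs with h
  · subst h
    apply jac_sgn hl
    intro h1
    have h2 : p ∣ D / p := by exact_mod_cast h1
    have h3 : p ^ 2 ∣ D := by
      rw [pow_two]
      exact Nat.mul_dvd_of_dvd_div hlD h2
    have := (Nat.Prime.pow_dvd_iff_le_factorization hl hD).1 h3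
    rw [hv hp] at this
    omega
  · apply jac_sgn hl
    intro h1
    have h2 : l ∣ p := by exact_mod_cast h1
    exact h ((Nat.prime_dvd_prime_iff_eq hl (hP p hp).1).1 h2).symm

end Pool.Agent.N218.P15
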