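import Pool.Agent.N218.P15.Five
import Pool.Agent.N970.P225.E4

/-!
# P15: the parity of the Gross sums for `5 ∣ n`, even discriminants, unconditionally
-/

set_option autoImplicit false

namespace Pool.Agent.N218.P15

theorem s_PARA5E : Pool.Agent.N973.P15.S_PARA5E := t_PARA5E Pool.Agent.N970.P225.t_R5E

theorem s_PARA5 : Pool.Agent.N973.P15.S_PARA5 := Pool.Agent.N871.P15.t_PARA5 Pool.Agent.N970.P225.t_R5

end Pool.Agent.N218.P15
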