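import Pool.Agent.N218.P15.ParE
import Pool.Agent.N973.P15.Defs3
import Pool.Agent.N871.P15.Fin

/-!
# P15: the parity of the Gross sums for `3 ∣ n`
-/

set_option autoImplicit false

namespace Pool.Agent.N218.P15

open Finset
open Pool.Agent.N969.P15
open Pool.Agent.N973.P15

theorem two_pow_cancel {k : ℕ} {a b : ℤ} (h : (2 : ℤ) ^ k * a = 2 ^ k * b) : a = b :=
  mul_left_cancel₀ (pow_ne_zero k two_ne_zero) h

/-- **PARA3** -/
theorem t_PARA3 (hR : S_R) (hP : S_PAR3) : S_PARA3 := by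
  rintro n ⟨hs, h4, ⟨m, rfl⟩, h5⟩ h3
  have h3m : ¬ 3 ∣ m := by
    rintro ⟨c, rfl⟩
    have := Nat.isUnit_iff.1 (hs 3 ⟨c, by ring⟩)
    omega
  have hm : Cls3 m := ⟨hs.squarefree_of_dvd (Dvd.intro_left _ rfl), by omega, h3m, by omega⟩
  obtain ⟨g, y, h1, h2, h6⟩ := hP m hm
  obtain ⟨g', h7, h8⟩ := hR (3 * m) hs h4 h5 h3
  have hc : (3 * m).primeFactors.card = m.primeFactors.card + 1 := by
    rw [card_cop ((Nat.Prime.coprime_iff_not_dvd Nat.prime_three).2 h3m) (by norm_num) hm.1.ne_zero,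
      Nat.Prime.primeFactors Nat.prime_three, Finset.card_singleton, add_comm]
  rw [hc] at h7 ⊢
  rw [h1] at h7
  have := two_pow_cancel h7
  subst this
  exact ⟨y, h2, h6.trans h8⟩

/-- **PARA3E** -/
theorem t_PARA3E (hRE : S_RE) (hP : S_PAR3E) : S_PARA3E := by
  rintro n ⟨hev, h3, h5⟩
  obtain ⟨g', h7, h8⟩ := hRE n hev h5
  obtain ⟨a, rfl, hs, h4⟩ := hev
  obtain ⟨b, rfl⟩ : 3 ∣ a := by omega
  have h3b : ¬ 3 ∣ b := by
    rintro ⟨c, rfl⟩
    have := Nat.isUnit_iff.1 (hs 3 ⟨c, by ring⟩)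
    omega
  have hm : Cls3e (4 * b) :=
    ⟨⟨b, rfl, hs.squarefree_of_dvd (Dvd.intro_left _ rfl), by omega⟩, by omega, by omega⟩
  obtain ⟨g, y, h1, h2, h6⟩ := hP (4 * b) hm
  have e : 4 * (3 * b) = 3 * (4 * b) := by ring
  rw [e] at h7 h8 ⊢
  have hb0 : b ≠ 0 := by rintro rfl; simp at h3b
  have hc : (3 * (4 * b)).primeFactors.card = (4 * b).primeFactors.card + 1 := by
    rw [card_cop ((Nat.Prime.coprime_iff_not_dvd Nat.prime_three).2 (by omega)) (by norm_num)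
      (by omega), Nat.Prime.primeFactors Nat.prime_three, Finset.card_singleton, add_comm]
  rw [hc] at h7 ⊢
  rw [h1] at h7
  have := two_pow_cancel h7
  subst this
  exact ⟨y, h2, h6.trans h8⟩

theorem s_PARA3 : S_PARA3 := t_PARA3 Pool.Agent.N877.P15.t_R Pool.Agent.N871.P15.s_PAR3

end Pool.Agent.N218.P15
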