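import Pool.Agent.N218.P15.FiveU
import Pool.Agent.N218.P15.Para
import Pool.Agent.N916.RE.Fin
import Pool.Agent.N970.P225.R5b
import Pool.Agent.N871.P15.Five2

/-!
# P15: the parity of the Gross sums, even discriminants divisible by `5`
-/

set_option autoImplicit false

namespace Pool.Agent.N218.P15

open Finset
open Pool.Agent.N969.P15
open Pool.Agent.N973.P15
open Pool.Agent.N871.P15 (rr_three cc_three rr_zero cc_zero card_mul odd_dvd_cancel mod_div ind33 ind32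
  s_REL33 s_REL32 s_REL31 s_U33' s_U32' s_CP3 ind33_5 ind32_5 prod_dvd)

/-! ### unconditional forms -/

theorem u_R5 : Pool.Agent.N871.P15.S_R5 := Pool.Agent.N970.P225.t_R5

theorem s_PAR3E : S_PAR3E := t_PAR3E Pool.Agent.N972.PC15.t_PC Pool.Agent.N877.P15.t_R
  Pool.Agent.N916.RE.t_RE Pool.Agent.N973.P15.t_REL22 s_CP3

theorem s_PARE : S_PARE := t_PARE Pool.Agent.N972.PC15.t_PC Pool.Agent.N877.P15.t_R
  Pool.Agent.N916.RE.t_RE Pool.Agent.N973.P15.t_REL22 s_CP3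

theorem s_PARA3E : S_PARA3E := t_PARA3E Pool.Agent.N916.RE.t_RE s_PAR3E

theorem u33E : ∀ m : ℕ, Cls3e m → ∃ g z : ℤ, rr (3 * m : ℕ) = 2 ^ (m.primeFactors.card + 1) * g ∧
    cc (3 * m : ℕ) = rr (3 * m : ℕ) + 2 ^ (m.primeFactors.card + 2) * z :=
  ind33E Pool.Agent.N972.PC15.t_PC Pool.Agent.N877.P15.t_R
    Pool.Agent.N916.RE.t_RE Pool.Agent.N973.P15.t_REL22 s_CP3

theorem u33 : ∀ m : ℕ, Cls3 m → ∃ g z : ℤ, rr (3 * m : ℕ) = 2 ^ (m.primeFactors.card + 1) * g ∧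
    cc (3 * m : ℕ) = rr (3 * m : ℕ) + 2 ^ (m.primeFactors.card + 2) * z :=
  ind33 Pool.Agent.N877.P15.t_R s_U33'

theorem u33_5 : ∀ m : ℕ, Squarefree m → m % 4 = 1 → ¬ 3 ∣ m → ¬ 5 ∣ m →
    ∃ g z : ℤ, rr (15 * m : ℕ) = 2 ^ (m.primeFactors.card + 1) * g ∧
      cc (15 * m : ℕ) = rr (15 * m : ℕ) + 2 ^ (m.primeFactors.card + 2) * z :=
  ind33_5 Pool.Agent.N972.PC15.t_PC Pool.Agent.N877.P15.t_R s_U33' u_R5

theorem u32_5 : ∀ n : ℕ, Squarefree n → n % 4 = 3 → n % 3 = 1 → ¬ 5 ∣ n →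
    ∃ g z : ℤ, rr (5 * n : ℕ) = 2 ^ n.primeFactors.card * g ∧
      cc (5 * n : ℕ) = rr (5 * n : ℕ) + 2 ^ (n.primeFactors.card + 1) * z :=
  ind32_5 Pool.Agent.N972.PC15.t_PC Pool.Agent.N877.P15.t_R s_U33' u_R5

/-! ### the divisibilities -/

theorem Dat.val {c A m : ℕ} (h : Dat c A m) (h3 : ¬ 3 ∣ m) (h5 : ¬ 5 ∣ m) {l : ℕ}
    (hl : l ∈ A.primeFactors) : m.factorization l = 1 := by
  obtain ⟨hlp, l2, l3, l5⟩ := (h.PP h3 h5) l hl
  have hlm := (h.dvd (Nat.dvd_of_mem_primeFactors hl)).1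
  have h1 : 1 ≤ m.factorization l := (hlp.dvd_iff_one_le_factorization h.pos.ne').1 hlm
  have h2 : ¬ 2 ≤ m.factorization l := fun h7 =>
    h.nsq hlp l2 ((Nat.Prime.pow_dvd_iff_le_factorization hlp h.pos.ne').2 h7)
  omega

theorem val_mul {q m l : ℕ} (hq : ¬ l ∣ q) (hq0 : q ≠ 0) (hm : m ≠ 0) (h : m.factorization l = 1) :
    (q * m).factorization l = 1 := by
  rw [Nat.factorization_mul hq0 hm, Finsupp.add_apply, Nat.factorization_eq_zero_of_not_dvd hq, h]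

theorem nd45 {l : ℕ} (hl : l.Prime) (h3 : l ≠ 3) (h5 : l ≠ 5) : ¬ l ∣ 45 := by
  intro h
  rw [show (45 : ℕ) = 3 * 15 by norm_num] at h
  rcases (Nat.Prime.dvd_mul hl).1 h with h | h
  · exact (T15.cop (Or.inr (Or.inl rfl)) hl h3 h5) h
  · exact (T15.cop (Or.inr (Or.inr (Or.inr rfl))) hl h3 h5) h

theorem pr_dvd {A : ℕ} {S : Finset ℕ} (hS : S ⊆ A.primeFactors) : pr S ∣ A :=
  prod_dvd (Finset.mem_powerset.2 hS)

theorem sqf_mul {t A : ℕ} (ht : T15 t) (hA : Squarefree A) (h3 : ¬ 3 ∣ A) (h5 : ¬ 5 ∣ A)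
    {d : ℕ} (hd : d ∣ A) : Squarefree (t * d) := by
  have hd' := hA.squarefree_of_dvd hd
  have c3 : Nat.Coprime 3 d :=
    (Nat.Prime.coprime_iff_not_dvd Nat.prime_three).2 fun h => h3 (h.trans hd)
  have c5 : Nat.Coprime 5 d :=
    (Nat.Prime.coprime_iff_not_dvd Nat.prime_five).2 fun h => h5 (h.trans hd)
  rw [Nat.squarefree_mul_iff]
  have s15 : Squarefree 15 := by
    rw [show (15 : ℕ) = 3 * 5 by norm_num, Nat.squarefree_mul_iff]
    exact ⟨by norm_num, Nat.prime_three.squarefree, Nat.prime_five.squarefree⟩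
  rcases ht with rfl | rfl | rfl | rfl
  · exact ⟨Nat.coprime_one_left d, squarefree_one, hd'⟩
  · exact ⟨c3, Nat.prime_three.squarefree, hd'⟩
  · exact ⟨c5, Nat.prime_five.squarefree, hd'⟩
  · exact ⟨(show (15 : ℕ) = 3 * 5 by norm_num) ▸ Nat.Coprime.mul_left c3 c5, s15, hd'⟩

theorem quo_eq {N m d t u : ℕ} (hN : N = t * u * m) (hd : d ∣ m) (htd : 0 < t * d) :
    N / (t * d) = u * (m / d) := by
  apply Nat.div_eq_of_eq_mul_right htd
  have e : d * (m / d) = m := Nat.mul_div_cancel' hd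
  calc N = t * u * m := hN
    _ = t * u * (d * (m / d)) := by rw [e]
    _ = t * d * (u * (m / d)) := by ring

/-- the divisibility for `15 m` -/
theorem core33_5 {c A m : ℕ} (h : Dat c A m) (h3 : ¬ 3 ∣ m) (h5 : ¬ 5 ∣ m) :
    (2 : ℤ) ^ (A.primeFactors.card + 2) ∣
      ∑ d ∈ A.divisors.filter (fun d => d % 4 = 1), (cp0 (3 * d : ℕ) (15 * (m / d) : ℕ) : ℤ) +
      ∑ d ∈ A.divisors.filter (fun d => d % 4 = 1), (cp0 (15 * d : ℕ) (3 * (m / d) : ℕ) : ℤ) := by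
  have hPP := h.PP h3 h5
  have hm0 := h.pos.ne'
  have hA0 := h.hs.ne_zero
  have h3A : ¬ 3 ∣ A := fun h' => h3 (h'.trans (h.dvd dvd_rfl).1)
  have h5A : ¬ 5 ∣ A := fun h' => h5 (h'.trans (h.dvd dvd_rfl).1)
  have t3 : T15 3 := Or.inr (Or.inl rfl)
  have t15 : T15 15 := Or.inr (Or.inr (Or.inr rfl))
  have hpd : ∀ S ⊆ A.primeFactors, pr S ∣ m := fun S hS => (h.dvd (pr_dvd hS)).1
  have key := tot2 hPP (N := 45 * m) t3 t15 (by omega) ⟨15 * m, by ring⟩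
    (fun l hl => val_mul (nd45 (hPP l hl).1 (hPP l hl).2.2.1 (hPP l hl).2.2.2) (by norm_num) hm0
      (h.val h3 h5 hl))
    (by
      rw [show 45 * m = 5 * (9 * m) by ring, Nat.factorization_mul (by norm_num) (by omega),
        Finsupp.add_apply, Nat.prime_five.factorization_self,
        Nat.factorization_eq_zero_of_not_dvd (by omega)])
    (Or.inl ⟨Or.inl rfl, Or.inr rfl⟩)
    (fun S hS => ⟨sqf_mul t3 h.hs h3A h5A (pr_dvd hS),
      (mul_dvd_mul_left 3 (hpd S hS)).trans ⟨15, by ring⟩⟩)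
    (fun S hS => ⟨sqf_mul t15 h.hs h3A h5A (pr_dvd hS),
      (mul_dvd_mul_left 15 (hpd S hS)).trans ⟨3, by ring⟩⟩)
  rw [show rt 3 = 1 from rfl, show rt 15 = 1 from rfl] at key
  rw [sum_div_filter h.hs (fun d => d % 4 = 1), sum_div_filter h.hs (fun d => d % 4 = 1)]
  refine key.trans (dvd_of_eq ?_)
  congr 1
  · refine Finset.sum_congr rfl fun S hS => ?_
    obtain ⟨a1, -⟩ := Finset.mem_filter.1 hS
    have b1 := Finset.mem_powerset.1 a1
    have := pr_pos (hPP.sub b1)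
    rw [quo_eq (t := 3) (u := 15) (by ring) (hpd S b1) (by omega)]
  · refine Finset.sum_congr rfl fun S hS => ?_
    obtain ⟨a1, -⟩ := Finset.mem_filter.1 hS
    have b1 := Finset.mem_powerset.1 a1
    have := pr_pos (hPP.sub b1)
    rw [quo_eq (t := 15) (u := 3) (by ring) (hpd S b1) (by omega)]

/-- the divisibility for `5 n` -/
theorem core32_5 {c A n : ℕ} (h : Dat c A n) (h3 : ¬ 3 ∣ n) (h5 : ¬ 5 ∣ n) :
    (2 : ℤ) ^ (A.primeFactors.card + 2) ∣
      ∑ d ∈ A.divisors.filter (fun d => d % 4 = 1), (cp0 (3 * d : ℕ) (5 * (n / d) : ℕ) : ℤ) +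
      ∑ d ∈ A.divisors.filter (fun d => d % 4 = 3), (cp0 (5 * d : ℕ) (3 * (n / d) : ℕ) : ℤ) := by
  have hPP := h.PP h3 h5
  have hm0 := h.pos.ne'
  have hA0 := h.hs.ne_zero
  have h3A : ¬ 3 ∣ A := fun h' => h3 (h'.trans (h.dvd dvd_rfl).1)
  have h5A : ¬ 5 ∣ A := fun h' => h5 (h'.trans (h.dvd dvd_rfl).1)
  have t3 : T15 3 := Or.inr (Or.inl rfl)
  have t5 : T15 5 := Or.inr (Or.inr (Or.inl rfl))
  have hpd : ∀ S ⊆ A.primeFactors, pr S ∣ n := fun S hS => (h.dvd (pr_dvd hS)).1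
  have key := tot2 hPP (N := 15 * n) t3 t5 (by omega) ⟨5 * n, by ring⟩
    (fun l hl => val_mul (T15.cop (Or.inr (Or.inr (Or.inr rfl))) (hPP l hl).1 (hPP l hl).2.2.1
      (hPP l hl).2.2.2) (by norm_num) hm0 (h.val h3 h5 hl))
    (by
      rw [show 15 * n = 5 * (3 * n) by ring, Nat.factorization_mul (by norm_num) (by omega),
        Finsupp.add_apply, Nat.prime_five.factorization_self,
        Nat.factorization_eq_zero_of_not_dvd (by omega)])
    (Or.inr (by omega))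
    (fun S hS => ⟨sqf_mul t3 h.hs h3A h5A (pr_dvd hS),
      (mul_dvd_mul_left 3 (hpd S hS)).trans ⟨5, by ring⟩⟩)
    (fun S hS => ⟨sqf_mul t5 h.hs h3A h5A (pr_dvd hS),
      (mul_dvd_mul_left 5 (hpd S hS)).trans ⟨3, by ring⟩⟩)
  rw [show rt 3 = 1 from rfl, show rt 5 = 3 from rfl] at key
  rw [sum_div_filter h.hs (fun d => d % 4 = 1), sum_div_filter h.hs (fun d => d % 4 = 3)]
  refine key.trans (dvd_of_eq ?_)
  congr 1
  · refine Finset.sum_congr rfl fun S hS => ?_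
    obtain ⟨a1, -⟩ := Finset.mem_filter.1 hS
    have b1 := Finset.mem_powerset.1 a1
    have := pr_pos (hPP.sub b1)
    rw [quo_eq (t := 3) (u := 5) (by ring) (hpd S b1) (by omega)]
  · refine Finset.sum_congr rfl fun S hS => ?_
    obtain ⟨a1, -⟩ := Finset.mem_filter.1 hS
    have b1 := Finset.mem_powerset.1 a1
    have := pr_pos (hPP.sub b1)
    rw [quo_eq (t := 5) (u := 3) (by ring) (hpd S b1) (by omega)]

theorem sqf15 {a : ℕ} (hs : Squarefree a) (h3 : ¬ 3 ∣ a) (h5 : ¬ 5 ∣ a) : Squarefree (15 * a) :=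
  sqf_mul (Or.inr (Or.inr (Or.inr rfl))) hs h3 h5 dvd_rfl

theorem sqf5 {a : ℕ} (hs : Squarefree a) (h5 : ¬ 5 ∣ a) : Squarefree (5 * a) := by
  rw [Nat.squarefree_mul_iff]
  exact ⟨(Nat.Prime.coprime_iff_not_dvd Nat.prime_five).2 h5, Nat.prime_five.squarefree, hs⟩

theorem cd5 {m : ℕ} (hm : m ≠ 0) (h5 : ¬ 5 ∣ m) :
    (5 * m).primeFactors.card = m.primeFactors.card + 1 := by
  rw [card_cop ((Nat.Prime.coprime_iff_not_dvd Nat.prime_five).2 h5) (by norm_num) hm,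
    Nat.Prime.primeFactors Nat.prime_five, Finset.card_singleton, add_comm]

theorem cd15 {m : ℕ} (hm : m ≠ 0) (h3 : ¬ 3 ∣ m) (h5 : ¬ 5 ∣ m) :
    (15 * m).primeFactors.card = m.primeFactors.card + 2 := by
  have e : 15 * m = 3 * (5 * m) := by ring
  have h3' : ¬ 3 ∣ 5 * m := by omega
  rw [e, card_cop ((Nat.Prime.coprime_iff_not_dvd Nat.prime_three).2 h3') (by norm_num) (by omega),
    Nat.Prime.primeFactors Nat.prime_three, Finset.card_singleton, cd5 hm h5]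
  ring

/-- the product of two congruences -/
theorem two_cong {R1 C1 R2 C2 g1 z1 g2 z2 : ℤ} {u v s : ℕ} (r1 : R1 = 2 ^ (u + 1) * g1)
    (s1 : C1 = R1 + 2 ^ (u + 2) * z1) (r2 : R2 = 2 ^ v * g2) (s2 : C2 = R2 + 2 ^ (v + 1) * z2)
    (hs : s = u + v + 2) : (2 : ℤ) ^ s ∣ 3 * R1 * R2 + C1 * C2 := by
  rw [s1, s2, r1, r2, hs]
  refine ⟨2 * g1 * g2 + g1 * z2 + g2 * z1 + 2 * z1 * z2, ?_⟩
  ring

/-- the congruence for `15 m`, even discriminants -/
theorem ind33_5E (hR5 : S_R5E) : ∀ m a : ℕ, m = 4 * a → Squarefree a → (a % 4 = 2 ∨ a % 4 = 3) →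
    ¬ 3 ∣ m → ¬ 5 ∣ m → ∃ g z : ℤ, rr (15 * m : ℕ) = 2 ^ (m.primeFactors.card + 1) * g ∧
      cc (15 * m : ℕ) = rr (15 * m : ℕ) + 2 ^ (m.primeFactors.card + 2) * z := by
  intro m
  induction m using Nat.strong_induction_on with
  | _ m ih =>
  intro a hma hsa ha4 h3 h5
  obtain ⟨c, A, h⟩ := dat_of hsa
  rw [← hma] at h
  have hm0 := h.pos.ne'
  set k := m.primeFactors.card with hk
  have hkA : k = A.primeFactors.card + 1 := h.card
  have h3a : ¬ 3 ∣ a := fun h' => h3 (by rw [hma]; exact Dvd.dvd.mul_left h' 4)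
  have h5a : ¬ 5 ∣ a := fun h' => h5 (by rw [hma]; exact Dvd.dvd.mul_left h' 4)
  obtain ⟨g, hg, -⟩ := hR5 (15 * m) ⟨15 * a, by rw [hma]; ring, sqf15 hsa h3a h5a, by omega⟩
    ⟨3 * m, by ring⟩
  rw [cd15 hm0 h3 h5, ← hk, show k + 2 - 1 = k + 1 by omega] at hg
  set R := rr (15 * m : ℕ) with hRd
  set C := cc (15 * m : ℕ) with hCd
  -- the first family
  set Q : ℕ → ℤ := fun d => 12 * (cp0 (3 * d : ℕ) (15 * (m / d) : ℕ) : ℤ) with hQ
  have hQ1 : ∀ d, d ∣ m → Q d = 3 * rr (3 * d : ℕ) * rr (15 * (m / d) : ℕ) +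
      cc (3 * d : ℕ) * cc (15 * (m / d) : ℕ) := by
    intro d hd
    have h3d : ¬ 3 ∣ d := fun h => h3 (h.trans hd)
    have h3d' : ¬ 3 ∣ m / d := fun h => h3 (h.trans (Nat.div_dvd_of_dvd hd))
    exact s_REL33 (3 * d) (15 * (m / d)) (Dvd.intro _ rfl) (by omega) ⟨5 * (m / d), by ring⟩
      (by omega)
  have hQone : Q 1 = 6 * (R - C) := by
    rw [hQ1 1 (one_dvd m), Nat.div_one]
    have : ((3 * 1 : ℕ) : ℤ) = 3 := by norm_num
    rw [this, rr_three, cc_three]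
    ring
  have hQd : ∀ d, d ∣ A → d % 4 = 1 → 1 < d → (2 : ℤ) ^ (k + 3) ∣ Q d := by
    intro d hdA hd4 hd1
    have hdm := h.dvd hdA
    have hd := hdm.1
    rw [hQ1 d hd]
    by_cases hd5 : d % 5 = 1 ∨ d % 5 = 4
    · have e1 : d * (m / d) = m := Nat.mul_div_cancel' hd
      have c1 : Cls3 d := ⟨h.hs.squarefree_of_dvd hdA, hd4, fun h => h3 (h.trans hd), hd5⟩
      have hq := quo (hma ▸ h) hsa hdA
      have hqa : (d % 4) * ((a / d) % 4) % 4 = a % 4 := by rw [← Nat.mul_mod, hq.2.2]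
      obtain ⟨g1, z1, r1, s1⟩ := u33 d c1
      obtain ⟨g2, z2, r2, s2⟩ := ih (m / d) (Nat.div_lt_self (by omega) hd1) (a / d)
        (by rw [hma]; exact hq.1) hq.2.1 (by rw [res4a hqa hd4]; exact ha4)
        (fun h => h3 (h.trans (Nat.div_dvd_of_dvd hd)))
        (fun h => h5 (h.trans (Nat.div_dvd_of_dvd hd)))
      have hcard : k = d.primeFactors.card + (m / d).primeFactors.card := by
        have hmd0 : m / d ≠ 0 := by
          intro h0; rw [h0, mul_zero] at e1; exact hm0 e1.symm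
        rw [hk, ← card_cop hdm.2.2.2.1 (by omega) hmd0, e1]
      exact two_cong r1 s1 r2 s2 (by omega)
    · have := res5d (five_dvd hd h5) hd5
      rw [rr_zero this, cc_zero this]
      simp
  -- the second family
  set Q' : ℕ → ℤ := fun d => 12 * (cp0 (15 * d : ℕ) (3 * (m / d) : ℕ) : ℤ) with hQ'
  have hQd' : ∀ d, d ∣ A → d % 4 = 1 → (2 : ℤ) ^ (k + 3) ∣ Q' d := by
    intro d hdA hd4
    have hdm := h.dvd hdA
    have hd := hdm.1
    have h3d : ¬ 3 ∣ d := fun h => h3 (h.trans hd)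
    have h3d' : ¬ 3 ∣ m / d := fun h => h3 (h.trans (Nat.div_dvd_of_dvd hd))
    have h5d' : ¬ 5 ∣ m / d := fun h => h5 (h.trans (Nat.div_dvd_of_dvd hd))
    simp only [hQ']
    rw [cp0_comm, s_REL33 (3 * (m / d)) (15 * d) (Dvd.intro _ rfl) (by omega)
      ⟨5 * d, by ring⟩ (by omega)]
    by_cases hd5 : m / d % 5 = 1 ∨ m / d % 5 = 4
    · have e1 : d * (m / d) = m := Nat.mul_div_cancel' hd
      have hq := quo (hma ▸ h) hsa hdA
      have hqa : (d % 4) * ((a / d) % 4) % 4 = a % 4 := by rw [← Nat.mul_mod, hq.2.2]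
      have c1 : Cls3e (m / d) := ⟨⟨a / d, by rw [hma]; exact hq.1, hq.2.1,
        by rw [res4a hqa hd4]; exact ha4⟩, h3d', hd5⟩
      obtain ⟨g1, z1, r1, s1⟩ := u33E (m / d) c1
      obtain ⟨g2, z2, r2, s2⟩ := u33_5 d (h.hs.squarefree_of_dvd hdA) hd4 h3d
        (fun h => h5 (h.trans hd))
      have hcard : k = d.primeFactors.card + (m / d).primeFactors.card := by
        have hmd0 : m / d ≠ 0 := by
          intro h0; rw [h0, mul_zero] at e1; exact hm0 e1.symm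
        rw [hk, ← card_cop hdm.2.2.2.1 (by omega) hmd0, e1]
      exact two_cong r1 s1 r2 s2 (by omega)
    · have := res5d h5d' hd5
      rw [rr_zero this, cc_zero this]
      simp
  have hsum := core33_5 h h3 h5
  set D := A.divisors.filter (fun d => d % 4 = 1) with hD
  have e1 : 12 * (∑ d ∈ D, (cp0 (3 * d : ℕ) (15 * (m / d) : ℕ) : ℤ) +
      ∑ d ∈ D, (cp0 (15 * d : ℕ) (3 * (m / d) : ℕ) : ℤ)) = ∑ d ∈ D, Q d + ∑ d ∈ D, Q' d := by
    rw [mul_add, Finset.mul_sum, Finset.mul_sum]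
  have h1D : 1 ∈ D := by
    rw [hD, Finset.mem_filter, Nat.mem_divisors]
    exact ⟨⟨one_dvd A, h.hs.ne_zero⟩, by norm_num⟩
  have e3 : (2 : ℤ) ^ (k + 3) ∣ ∑ d ∈ D.erase 1, Q d := by
    refine Finset.dvd_sum fun d hd => ?_
    rw [Finset.mem_erase, hD, Finset.mem_filter, Nat.mem_divisors] at hd
    obtain ⟨hd1, ⟨hdA, -⟩, hd4⟩ := hd
    exact hQd d hdA hd4 (by omega)
  have e3' : (2 : ℤ) ^ (k + 3) ∣ ∑ d ∈ D, Q' d := by
    refine Finset.dvd_sum fun d hd => ?_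
    rw [hD, Finset.mem_filter, Nat.mem_divisors] at hd
    exact hQd' d hd.1.1 hd.2
  obtain ⟨c', hc'⟩ := hsum
  obtain ⟨w, hw⟩ := e3
  obtain ⟨w', hw'⟩ := e3'
  rw [hc', ← Finset.add_sum_erase _ _ h1D, hw, hw', hQone] at e1
  have e4 : (2 : ℤ) ^ (k + 2) ∣ 3 * (C - R) := by
    refine ⟨w + w' - 3 * c', ?_⟩
    have : 2 * (3 * (C - R)) = 2 * (2 ^ (k + 2) * (w + w' - 3 * c')) := by
      have e5 : (2 : ℤ) ^ (k + 3) = 2 * 2 ^ (k + 2) := by rw [pow_succ']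
      have e6 : (2 : ℤ) ^ (k + 2) = 2 * 2 ^ (A.primeFactors.card + 2) := by
        rw [hkA, ← pow_succ']
      rw [e5, e6] at e1
      rw [e6]
      linear_combination e1
    linarith
  obtain ⟨z, hz⟩ := odd_dvd_cancel e4
  exact ⟨g, z, hg, by linarith⟩

/-- the congruence for `5 n`, even discriminants -/
theorem ind32_5E (hR5 : S_R5E) : ∀ n a : ℕ, n = 4 * a → Squarefree a → (a % 4 = 1 ∨ a % 4 = 2) →
    n % 3 = 1 → ¬ 5 ∣ n → ∃ g z : ℤ, rr (5 * n : ℕ) = 2 ^ n.primeFactors.card * g ∧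
      cc (5 * n : ℕ) = rr (5 * n : ℕ) + 2 ^ (n.primeFactors.card + 1) * z := by
  intro n
  induction n using Nat.strong_induction_on with
  | _ n ih =>
  intro a hna hsa ha4 h31 h5
  have h3 : ¬ 3 ∣ n := by omega
  obtain ⟨c, A, h⟩ := dat_of hsa
  rw [← hna] at h
  have hn0 := h.pos.ne'
  set t := n.primeFactors.card with ht
  have htA : t = A.primeFactors.card + 1 := h.card
  have h5a : ¬ 5 ∣ a := fun h' => h5 (by rw [hna]; exact Dvd.dvd.mul_left h' 4)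
  obtain ⟨g, hg, -⟩ := hR5 (5 * n) ⟨5 * a, by rw [hna]; ring, sqf5 hsa h5a, by omega⟩ ⟨n, rfl⟩
  rw [cd5 hn0 h5, ← ht, Nat.add_sub_cancel] at hg
  set R := rr (5 * n : ℕ) with hRd
  set C := cc (5 * n : ℕ) with hCd
  -- the first family
  set Q : ℕ → ℤ := fun d => 6 * (cp0 (3 * d : ℕ) (5 * (n / d) : ℕ) : ℤ) with hQ
  have hQ1 : ∀ d, d ∣ n → (5 * (n / d)) % 3 = 2 → Q d = 3 * rr (3 * d : ℕ) * rr (5 * (n / d) : ℕ) +
      cc (3 * d : ℕ) * cc (5 * (n / d) : ℕ) := by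
    intro d hd h
    have h3d : ¬ 3 ∣ d := fun h => h3 (h.trans hd)
    exact s_REL32 (3 * d) (5 * (n / d)) (Dvd.intro _ rfl) (by omega) h
  have hQone : Q 1 = 6 * (R - C) := by
    rw [hQ1 1 (one_dvd n) (by rw [Nat.div_one]; omega), Nat.div_one]
    have : ((3 * 1 : ℕ) : ℤ) = 3 := by norm_num
    rw [this, rr_three, cc_three]
    ring
  have hQd : ∀ d, d ∣ A → d % 4 = 1 → 1 < d → (2 : ℤ) ^ (t + 2) ∣ Q d := by
    intro d hdA hd4 hd1
    have hdm := h.dvd hdA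
    have hd := hdm.1
    have h3d : ¬ 3 ∣ d := fun h => h3 (h.trans hd)
    have h3d' : ¬ 3 ∣ n / d := fun h => h3 (h.trans (Nat.div_dvd_of_dvd hd))
    by_cases h32 : (5 * (n / d)) % 3 = 2
    swap
    · have : Q d = 0 := by
        have := s_REL31 (3 * d) (5 * (n / d)) (Dvd.intro _ rfl) (by omega) (by omega)
        simp only [hQ]
        rw [this]
        rfl
      rw [this]
      exact dvd_zero _
    rw [hQ1 d hd h32]
    by_cases hd5 : d % 5 = 1 ∨ d % 5 = 4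
    · have e1 : d * (n / d) = n := Nat.mul_div_cancel' hd
      have c1 : Cls3 d := ⟨h.hs.squarefree_of_dvd hdA, hd4, h3d, hd5⟩
      have hq := quo (hna ▸ h) hsa hdA
      have hqa : (d % 4) * ((a / d) % 4) % 4 = a % 4 := by rw [← Nat.mul_mod, hq.2.2]
      obtain ⟨g1, z1, r1, s1⟩ := u33 d c1
      obtain ⟨g2, z2, r2, s2⟩ := ih (n / d) (Nat.div_lt_self (by omega) hd1) (a / d)
        (by rw [hna]; exact hq.1) hq.2.1 (by rw [res4a hqa hd4]; exact ha4) (by omega)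
        (fun h => h5 (h.trans (Nat.div_dvd_of_dvd hd)))
      have hcard : t = d.primeFactors.card + (n / d).primeFactors.card := by
        have hmd0 : n / d ≠ 0 := by
          intro h0; rw [h0, mul_zero] at e1; exact hn0 e1.symm
        rw [ht, ← card_cop hdm.2.2.2.1 (by omega) hmd0, e1]
      exact two_cong r1 s1 r2 s2 (by omega)
    · have := res5d (five_dvd hd h5) hd5
      rw [rr_zero this, cc_zero this]
      simp
  -- the second family
  set Q' : ℕ → ℤ := fun d => 6 * (cp0 (5 * d : ℕ) (3 * (n / d) : ℕ) : ℤ) with hQ'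
  have hQd' : ∀ d, d ∣ A → d % 4 = 3 → (2 : ℤ) ^ (t + 2) ∣ Q' d := by
    intro d hdA hd4
    have hdm := h.dvd hdA
    have hd := hdm.1
    have h3d : ¬ 3 ∣ d := fun h => h3 (h.trans hd)
    have h3d' : ¬ 3 ∣ n / d := fun h => h3 (h.trans (Nat.div_dvd_of_dvd hd))
    have h5d' : ¬ 5 ∣ n / d := fun h => h5 (h.trans (Nat.div_dvd_of_dvd hd))
    simp only [hQ']
    rw [cp0_comm]
    by_cases h32 : (5 * d) % 3 = 2
    swap
    · have := s_REL31 (3 * (n / d)) (5 * d) (Dvd.intro _ rfl) (by omega) (by omega)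
      rw [this]
      simp
    rw [s_REL32 (3 * (n / d)) (5 * d) (Dvd.intro _ rfl) (by omega) h32]
    by_cases hd5 : n / d % 5 = 1 ∨ n / d % 5 = 4
    · have e1 : d * (n / d) = n := Nat.mul_div_cancel' hd
      have hq := quo (hna ▸ h) hsa hdA
      have hqa : (d % 4) * ((a / d) % 4) % 4 = a % 4 := by rw [← Nat.mul_mod, hq.2.2]
      have c1 : Cls3e (n / d) := ⟨⟨a / d, by rw [hna]; exact hq.1, hq.2.1, res4c hqa hd4 ha4⟩,
        h3d', hd5⟩
      obtain ⟨g1, z1, r1, s1⟩ := u33E (n / d) c1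
      obtain ⟨g2, z2, r2, s2⟩ := u32_5 d (h.hs.squarefree_of_dvd hdA) hd4 (by omega)
        (fun h => h5 (h.trans hd))
      have hcard : t = d.primeFactors.card + (n / d).primeFactors.card := by
        have hmd0 : n / d ≠ 0 := by
          intro h0; rw [h0, mul_zero] at e1; exact hn0 e1.symm
        rw [ht, ← card_cop hdm.2.2.2.1 (by omega) hmd0, e1]
      exact two_cong r1 s1 r2 s2 (by omega)
    · have := res5d h5d' hd5
      rw [rr_zero this, cc_zero this]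
      simp
  have hsum := core32_5 h h3 h5
  set D := A.divisors.filter (fun d => d % 4 = 1) with hD
  set D' := A.divisors.filter (fun d => d % 4 = 3) with hD'
  have e1 : 6 * (∑ d ∈ D, (cp0 (3 * d : ℕ) (5 * (n / d) : ℕ) : ℤ) +
      ∑ d ∈ D', (cp0 (5 * d : ℕ) (3 * (n / d) : ℕ) : ℤ)) = ∑ d ∈ D, Q d + ∑ d ∈ D', Q' d := by
    rw [mul_add, Finset.mul_sum, Finset.mul_sum]
  have h1D : 1 ∈ D := by
    rw [hD, Finset.mem_filter, Nat.mem_divisors]
    exact ⟨⟨one_dvd A, h.hs.ne_zero⟩, by norm_num⟩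
  have e3 : (2 : ℤ) ^ (t + 2) ∣ ∑ d ∈ D.erase 1, Q d := by
    refine Finset.dvd_sum fun d hd => ?_
    rw [Finset.mem_erase, hD, Finset.mem_filter, Nat.mem_divisors] at hd
    obtain ⟨hd1, ⟨hdn, -⟩, hd4⟩ := hd
    exact hQd d hdn hd4 (by omega)
  have e3' : (2 : ℤ) ^ (t + 2) ∣ ∑ d ∈ D', Q' d := by
    refine Finset.dvd_sum fun d hd => ?_
    rw [hD', Finset.mem_filter, Nat.mem_divisors] at hd
    exact hQd' d hd.1.1 hd.2
  obtain ⟨c', hc'⟩ := hsum
  obtain ⟨w, hw⟩ := e3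
  obtain ⟨w', hw'⟩ := e3'
  rw [hc', ← Finset.add_sum_erase _ _ h1D, hw, hw', hQone] at e1
  have e4 : (2 : ℤ) ^ (t + 1) ∣ 3 * (C - R) := by
    refine ⟨w + w' - 3 * c', ?_⟩
    have : 2 * (3 * (C - R)) = 2 * (2 ^ (t + 1) * (w + w' - 3 * c')) := by
      have e5 : (2 : ℤ) ^ (t + 2) = 2 * 2 ^ (t + 1) := by rw [pow_succ' 2 (t + 1)]
      have e6 : (2 : ℤ) ^ (A.primeFactors.card + 2) = 2 ^ (t + 1) := by rw [htA]
      rw [e5, e6] at e1
      linear_combination e1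
    linarith
  obtain ⟨z, hz⟩ := odd_dvd_cancel e4
  exact ⟨g, z, hg, by linarith⟩

/-- **PARA5E** -/
theorem t_PARA5E (hR5 : S_R5E) : S_PARA5E := by
  intro n hn
  have hev : Ev n := by rcases hn with h | h <;> exact h.1
  have h5n : 5 ∣ n := by rcases hn with h | h <;> exact h.2.2
  obtain ⟨g, hg, hgQ⟩ := hR5 n hev h5n
  have key : ∃ z : ℤ, cc n = rr n + 2 ^ (n.primeFactors.card - 1 + 1) * z := by
    obtain ⟨a, rfl, hsa, ha4⟩ := hev
    have h5a : 5 ∣ a := by omega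
    obtain ⟨b, rfl⟩ := h5a
    have hb5 : ¬ 5 ∣ b := by
      rintro ⟨c, rfl⟩
      have := Nat.isUnit_iff.1 (hsa 5 ⟨c, by ring⟩)
      omega
    have hbs : Squarefree b := hsa.squarefree_of_dvd (Dvd.intro_left _ rfl)
    have hb0 := hbs.ne_zero
    by_cases h3 : 3 ∣ b
    · obtain ⟨d, rfl⟩ := h3
      have hd3 : ¬ 3 ∣ d := by
        rintro ⟨c, rfl⟩
        have := Nat.isUnit_iff.1 (hbs 3 ⟨c, by ring⟩)
        omega
      have hds : Squarefree d := hbs.squarefree_of_dvd (Dvd.intro_left _ rfl)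
      have hd5 : ¬ 5 ∣ d := fun h => hb5 (h.mul_left 3)
      obtain ⟨g', z, -, h⟩ := ind33_5E hR5 (4 * d) d rfl hds (by omega) (by omega) (by omega)
      have e : 4 * (5 * (3 * d)) = 15 * (4 * d) := by ring
      rw [e, cd15 (by omega) (by omega) (by omega), h]
      exact ⟨z, rfl⟩
    · have hn3 : 4 * (5 * b) % 3 = 2 := by
        rcases hn with h | h
        · have := h.2.1; omega
        · exact h.2.1
      obtain ⟨g', z, -, h⟩ := ind32_5E hR5 (4 * b) b rfl hbs (by omega) (by omega) (by omega)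
      have e : 4 * (5 * b) = 5 * (4 * b) := by ring
      rw [e, cd5 (by omega) (by omega), h]
      exact ⟨z, rfl⟩
  obtain ⟨z, hz⟩ := key
  refine ⟨g + 2 * z, ?_, ?_⟩
  · rw [hz, hg, pow_succ]
    ring
  · rw [← hgQ, Int.odd_add]
    exact ⟨fun h => h.2 (even_two_mul z), fun h => ⟨fun _ => even_two_mul z, fun _ => h⟩⟩

end Pool.Agent.N218.P15
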