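import Pool.Agent.N218.P15.Loc

/-!
# P15: sums over the factorizations, families `t * e` with `t` dividing `15`
-/

set_option autoImplicit false

namespace Pool.Agent.N218.P15

open Finset
open Pool.Agent.N969.P15
open Pool.Agent.Z700 (hh fac)

/-- the multipliers -/
def T15 (t : ℕ) : Prop := t = 1 ∨ t = 3 ∨ t = 5 ∨ t = 15

/-- the residue of the variable factor -/
def rt (t : ℕ) : ℕ := if t = 3 ∨ t = 15 then 1 else 3

theorem T15.cop {t : ℕ} (ht : T15 t) {l : ℕ} (hl : l.Prime) (h3 : l ≠ 3) (h5 : l ≠ 5) : ¬ l ∣ t := by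
  intro h
  have a3 : ¬ l ∣ 3 := fun h => h3 ((Nat.prime_dvd_prime_iff_eq hl Nat.prime_three).1 h)
  have a5 : ¬ l ∣ 5 := fun h => h5 ((Nat.prime_dvd_prime_iff_eq hl Nat.prime_five).1 h)
  rcases ht with rfl | rfl | rfl | rfl
  · exact hl.one_lt.ne' (Nat.dvd_one.1 h)
  · exact a3 h
  · exact a5 h
  · rw [show (15 : ℕ) = 3 * 5 by norm_num] at h
    rcases (Nat.Prime.dvd_mul hl).1 h with h | h
    · exact a3 h
    · exact a5 h

theorem fac_prod' {P S : Finset ℕ} (hP : PP P) (hS : S ⊆ P) {t D l : ℕ} (ht : T15 t)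
    (hl : l.Prime) (h3 : l ≠ 3) (h5 : l ≠ 5) (hv : l ∈ P → D.factorization l = 1) :
    fac (t * pr S) D l = ∑ j ∈ range (D.factorization l + 1),
      (jacobiSym (-(t : ℤ)) l * ∏ p ∈ S, ee D l p) ^ j := by
  classical
  by_cases hlS : l ∈ S
  · have hdvd : l ∣ t * pr S := Dvd.dvd.mul_left (Finset.dvd_prod_of_mem _ hlS) _
    have hv1 := hv (hS hlS)
    unfold fac hh
    rw [if_pos hdvd, if_neg (by rw [hv1]; decide), hv1, pow_one]
    have h1 : t * pr S / l = t * pr (S.erase l) := by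
      unfold pr
      rw [← Finset.mul_prod_erase S _ hlS]
      rw [show t * (l * ∏ p ∈ S.erase l, p) = l * (t * ∏ p ∈ S.erase l, p) by ring]
      exact Nat.mul_div_cancel_left _ hl.pos
    rw [h1]
    have h2 : ∏ p ∈ S, ee D l p = jacobiSym ((D / l : ℕ) : ℤ) l *
        ∏ p ∈ S.erase l, jacobiSym (p : ℤ) l := by
      rw [← Finset.mul_prod_erase S _ hlS]
      congr 1
      · unfold ee; rw [if_pos rfl]
      · refine Finset.prod_congr rfl fun p hp => ?_
        unfold ee; rw [if_neg (Finset.ne_of_mem_erase hp)]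
    rw [h2, Finset.sum_range_succ, Finset.sum_range_one, pow_zero, pow_one]
    congr 1
    rw [show (-((t * pr (S.erase l) * (D / l) : ℕ) : ℤ)) =
      -(t : ℤ) * ((pr (S.erase l) : ℕ) : ℤ) * ((D / l : ℕ) : ℤ) by push_cast; ring,
      jacobiSym.mul_left, jacobiSym.mul_left, jac_pr]
    ring
  · have hnd : ¬ l ∣ t * pr S := by
      intro h
      rcases (Nat.Prime.dvd_mul hl).1 h with h | h
      · exact ht.cop hl h3 h5 h
      · obtain ⟨p, hp, h⟩ := (Prime.dvd_finsetProd_iff hl.prime _).1 h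
        have := (Nat.prime_dvd_prime_iff_eq hl (hP p (hS hp)).1).1 h
        exact hlS (this ▸ hp)
    unfold fac
    rw [if_neg hnd]
    have h2 : ∏ p ∈ S, ee D l p = ∏ p ∈ S, jacobiSym (p : ℤ) l := by
      refine Finset.prod_congr rfl fun p hp => ?_
      unfold ee; rw [if_neg (by rintro rfl; exact hlS hp)]
    rw [h2, ← jac_pr, ← jacobiSym.mul_left]
    push_cast
    refine Finset.sum_congr rfl fun j _ => ?_
    congr 2
    ring

/-- the initial signs -/
def su (t : ℕ) (l : ℕ) : ℤ :=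
  if l = 2 then (if t = 3 ∨ t = 5 then -1 else 1) else jacobiSym (-(t : ℤ)) l

theorem lA_eq' {P S : Finset ℕ} (hP : PP P) (hS : S ⊆ P) {t D : ℕ} (ht : T15 t)
    (hc : pr S % 4 = rt t)
    (hv : ∀ l ∈ P, l ∣ D → D.factorization l = 1) (h2 : 2 ≤ D.factorization 2) :
    lA (t * pr S) D = FF (insert 2 (L0 D)) (VV D) (su t) (e2 D) S := by
  unfold lA FF
  have h2n : 2 ∉ L0 D := fun h => (mem_L0 h).2.2.1 rfl
  rw [Finset.prod_insert h2n]
  have hf := pr_facts (hP.sub hS)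
  congr 1
  · unfold tw VV su e2
    rw [if_pos rfl]
    simp only [if_true]
    rw [hf.2.2.2.2, show D.factorization 2 - 1 = D.factorization 2 - 2 + 1 by omega]
    refine Finset.sum_congr rfl fun j _ => ?_
    congr 1
    unfold x8
    generalize pr S = d at hc hf ⊢
    have h8 : d % 8 = 1 ∨ d % 8 = 3 ∨ d % 8 = 5 ∨ d % 8 = 7 := by omega
    rcases ht with rfl | rfl | rfl | rfl <;> norm_num [rt] at hc <;>
      rcases h8 with h8 | h8 | h8 | h8 <;>
      first
      | (exfalso; omega)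
      | (rw [Nat.mul_mod, h8]; norm_num)
  · refine Finset.prod_congr rfl fun l hl => ?_
    obtain ⟨a1, a2, a3, a4, a5⟩ := mem_L0 hl
    rw [fac_prod' hP hS ht a1 a4 a5 (fun h => hv l h a2)]
    unfold VV su e2
    simp only [if_neg a3, if_neg a4]

theorem su_sgn {t : ℕ} (ht : T15 t) {D l : ℕ} (hl : l ∈ insert 2 (L0 D)) : Sgn (su t l) := by
  unfold su
  by_cases h2 : l = 2
  · rw [if_pos h2]
    split_ifs <;> simp [Sgn]
  · rw [if_neg h2]
    have hl' : l ∈ L0 D := by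
      simp only [Finset.mem_insert] at hl
      tauto
    obtain ⟨a1, a2, a3, a4, a5⟩ := mem_L0 hl'
    apply jac_sgn a1
    intro h
    rw [dvd_neg] at h
    exact ht.cop a1 a4 a5 (by exact_mod_cast h)

/-- the factor at `3` -/
def f3 (D : ℕ) (κ : ℤ) (S : Finset ℕ) : ℤ :=
  if Even (D.factorization 3) then 1 + κ else 1 + κ * ∏ p ∈ S, x3 p

theorem fac3_eq {t D : ℕ} (ht : T15 t) (hD : 0 < D) (h3D : 3 ∣ D)
    (h1 : (t = 3 ∨ t = 15) ∨ D.factorization 3 = 1) :
    ∃ κ : ℤ, Sgn κ ∧ ∀ P S : Finset ℕ, PP P → S ⊆ P → fac (t * pr S) D 3 = f3 D κ S := by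
  have hu : ¬ (3 : ℤ) ∣ -((D / 3 ^ D.factorization 3 : ℕ) : ℤ) := by
    rw [dvd_neg]
    intro h
    have h' : 3 ∣ D / 3 ^ D.factorization 3 := by exact_mod_cast h
    exact Nat.not_dvd_ordCompl Nat.prime_three hD.ne' h'
  have hu' : Sgn (jacobiSym (-((D / 3 ^ D.factorization 3 : ℕ) : ℤ)) 3) := jac_sgn Nat.prime_three hu
  by_cases ht3 : t = 3 ∨ t = 15
  · obtain ⟨t', ht', h5⟩ : ∃ t' : ℕ, t = 3 * t' ∧ (t' = 1 ∨ t' = 5) := by
      rcases ht3 with rfl | rfl
      · exact ⟨1, rfl, Or.inl rfl⟩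
      · exact ⟨5, rfl, Or.inr rfl⟩
    have ht5 : Sgn (jacobiSym (t' : ℤ) 3) := by
      apply jac_sgn Nat.prime_three
      rcases h5 with rfl | rfl <;> norm_num
    by_cases hev : Even (D.factorization 3)
    · refine ⟨_, hu', fun P S hP hS => ?_⟩
      have hdvd : 3 ∣ t * pr S := by rw [ht', mul_assoc]; exact dvd_mul_right 3 _
      unfold f3 fac hh
      rw [if_pos hev, if_pos hdvd, if_pos hev]
    · refine ⟨jacobiSym (-((D / 3 ^ D.factorization 3 : ℕ) : ℤ)) 3 * jacobiSym (t' : ℤ) 3,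
        hu'.mul ht5, fun P S hP hS => ?_⟩
      have hf := pr_facts (hP.sub hS)
      have hdvd : 3 ∣ t * pr S := by rw [ht', mul_assoc]; exact dvd_mul_right 3 _
      unfold f3 fac hh
      rw [if_neg hev, if_pos hdvd, if_neg hev]
      congr 1
      rw [ht', mul_assoc, Nat.mul_div_cancel_left _ (by norm_num : 0 < 3), hf.2.2.2.1, ← jac3 hf.2.1,
        ← jacobiSym.mul_left, ← jacobiSym.mul_left]
      congr 1
      push_cast
      ring
  · have h31 := h1.resolve_left ht3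
    have hev : ¬ Even (D.factorization 3) := by rw [h31]; decide
    have htt : t = 1 ∨ t = 5 := by
      rcases ht with h | h | h | h
      · exact Or.inl h
      · exact absurd (Or.inl h) ht3
      · exact Or.inr h
      · exact absurd (Or.inr h) ht3
    have hts : Sgn (jacobiSym (-(t : ℤ)) 3) := by
      apply jac_sgn Nat.prime_three
      rcases htt with rfl | rfl <;> norm_num
    refine ⟨_, hts, fun P S hP hS => ?_⟩
    have hf := pr_facts (hP.sub hS)
    have hnd : ¬ 3 ∣ t * pr S := by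
      intro h
      rcases (Nat.Prime.dvd_mul Nat.prime_three).1 h with h | h
      · rcases htt with rfl | rfl <;> norm_num at h
      · exact hf.2.1 (Nat.mod_eq_zero_of_dvd h)
    unfold f3 fac
    rw [if_neg hev, if_neg hnd, h31, Finset.sum_range_succ, Finset.sum_range_one, pow_zero, pow_one]
    congr 1
    rw [hf.2.2.2.1, ← jac3 hf.2.1, ← jacobiSym.mul_left]
    congr 1
    push_cast
    ring

theorem loc_eq3 {n1 D : ℕ} (hD : 0 < D) (h3D : 3 ∣ D) :
    loc n1 D = if Odd (D.factorization 5) then fac n1 D 3 * lA n1 D else 0 := by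
  unfold loc lA
  split_ifs with h5
  · have hm : 3 ∈ (D.primeFactors.erase 2).erase 5 := by
      simp only [Finset.mem_erase, Nat.mem_primeFactors]
      exact ⟨by norm_num, by norm_num, by norm_num, h3D, by omega⟩
    rw [← Finset.mul_prod_erase _ _ hm, Finset.erase_right_comm]
    unfold L0
    ring
  · rfl

/-- the sum over the residue class of the family -/
theorem sumT {P : Finset ℕ} (hP : PP P) (t : ℕ) (f : Finset ℕ → ℤ) :
    2 * ∑ S ∈ P.powerset.filter (fun S => pr S % 4 = rt t), f S =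
      ∑ S ∈ P.powerset, (1 + (if t = 3 ∨ t = 15 then 1 else -1) * ∏ p ∈ S, x4 p) * f S := by
  unfold rt
  split_ifs
  · rw [sumH hP]; simp
  · rw [sumHc hP]
    refine Finset.sum_congr rfl fun S _ => ?_
    ring

/-- the reference value -/
def RV (P : Finset ℕ) (D : ℕ) : ℤ :=
  if Odd (D.factorization 5) ∧ 2 ≤ D.factorization 2 ∧ ¬ Even (D.factorization 3) then
    GS P (insert 2 (L0 D)) (VV D) (fun _ => 1) (e2 D) (fun _ => 1) +
    GS P (insert 2 (L0 D)) (VV D) (fun _ => 1) (e2 D) x4 +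
    GS P (insert 2 (L0 D)) (VV D) (fun _ => 1) (e2 D) x3 +
    GS P (insert 2 (L0 D)) (VV D) (fun _ => 1) (e2 D) (fun p => x4 p * x3 p)
  else 0

theorem adj {k : ℕ} {X Y a : ℤ} (h1 : (2 : ℤ) ^ k ∣ X) (h2 : (2 : ℤ) ^ (k + 1) ∣ X - Y) (ha : Sgn a) :
    (2 : ℤ) ^ (k + 1) ∣ a * X - Y := by
  have e : a * X - Y = (a - 1) * X + (X - Y) := by ring
  rw [e]
  refine dvd_add ?_ h2
  rw [pow_succ, mul_comm ((2 : ℤ) ^ k) 2]
  have : (2 : ℤ) ∣ a - 1 := by
    have := ha.odd
    omega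
  exact mul_dvd_mul this h1

/-- all the families agree modulo `2 ^ (k + 1)` -/
theorem famT {P : Finset ℕ} (hP : PP P) {t D : ℕ} (ht : T15 t) (hD : 0 < D) (h3D : 3 ∣ D)
    (hv : ∀ l ∈ P, l ∣ D → D.factorization l = 1)
    (h1 : (t = 3 ∨ t = 15) ∨ D.factorization 3 = 1) :
    (2 : ℤ) ^ (P.card + 1) ∣
      2 * ∑ S ∈ P.powerset.filter (fun S => pr S % 4 = rt t), loc (t * pr S) D - RV P D ∧
    (2 : ℤ) ^ P.card ∣ RV P D := by
  obtain ⟨κ, hκ, hf3⟩ := fac3_eq ht hD h3D h1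
  simp only [loc_eq3 hD h3D]
  by_cases h5 : Odd (D.factorization 5)
  swap
  · simp only [if_neg h5]
    unfold RV
    rw [if_neg (fun h => h5 h.1)]
    simp
  simp only [if_pos h5]
  by_cases h2 : 2 ≤ D.factorization 2
  swap
  · have h0 : ∀ n1, lA n1 D = 0 := fun n1 => lA_small n1 (by omega)
    unfold RV
    rw [if_neg (fun h => h2 h.2.1)]
    simp [h0]
  set L := insert 2 (L0 D) with hL
  have hLL : ∀ l ∈ L, l ∈ insert 2 (insert 3 (L0 D)) := by
    intro l hl
    rw [hL] at hl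
    simp only [Finset.mem_insert] at hl ⊢
    tauto
  have he : ∀ l ∈ L, ∀ p ∈ P, Sgn (e2 D l p) := fun l hl p hp => e2_sgn hP hD.ne' hv (hLL l hl) hp
  have hst : ∀ l ∈ L, Sgn (su t l) := fun l hl => su_sgn ht hl
  have hs1 : ∀ l ∈ L, Sgn ((fun _ => 1 : ℕ → ℤ) l) := fun l _ => Or.inl rfl
  have key := abs1 P (VV D) (su t) (fun _ => 1) (e2 D) L hst hs1 he
  have key' := abs1 P (VV D) (fun _ => 1) (fun _ => 1) (e2 D) L hs1 hs1 he
  have A1 := key (fun _ => 1) (fun _ _ => Or.inl rfl)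
  have A2 := key x4 (fun p _ => x4_sgn p)
  have A3 := key x3 (fun p _ => x3_sgn p)
  have A4 := key (fun p => x4 p * x3 p) (fun p _ => (x4_sgn p).mul (x3_sgn p))
  have B1 := (key' (fun _ => 1) (fun _ _ => Or.inl rfl)).1
  have B2 := (key' x4 (fun p _ => x4_sgn p)).1
  have B3 := (key' x3 (fun p _ => x3_sgn p)).1
  have B4 := (key' (fun p => x4 p * x3 p) (fun p _ => (x4_sgn p).mul (x3_sgn p))).1
  set X1 := GS P L (VV D) (su t) (e2 D) (fun _ => 1) with hX1
  set X2 := GS P L (VV D) (su t) (e2 D) x4 with hX2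
  set X3 := GS P L (VV D) (su t) (e2 D) x3 with hX3
  set X4 := GS P L (VV D) (su t) (e2 D) (fun p => x4 p * x3 p) with hX4
  set Y1 := GS P L (VV D) (fun _ => 1) (e2 D) (fun _ => 1) with hY1
  set Y2 := GS P L (VV D) (fun _ => 1) (e2 D) x4 with hY2
  set Y3 := GS P L (VV D) (fun _ => 1) (e2 D) x3 with hY3
  set Y4 := GS P L (VV D) (fun _ => 1) (e2 D) (fun p => x4 p * x3 p) with hY4
  set η : ℤ := if t = 3 ∨ t = 15 then 1 else -1 with hη
  have hηs : Sgn η := by rw [hη]; split_ifs <;> simp [Sgn]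
  have e1 : 2 * ∑ S ∈ P.powerset.filter (fun S => pr S % 4 = rt t),
      fac (t * pr S) D 3 * lA (t * pr S) D =
      if Even (D.factorization 3) then (1 + κ) * (X1 + η * X2)
      else X1 + η * X2 + κ * X3 + η * κ * X4 := by
    have h1 : ∑ S ∈ P.powerset.filter (fun S => pr S % 4 = rt t),
        fac (t * pr S) D 3 * lA (t * pr S) D =
        ∑ S ∈ P.powerset.filter (fun S => pr S % 4 = rt t),
          f3 D κ S * FF L (VV D) (su t) (e2 D) S := by
      refine Finset.sum_congr rfl fun S hS => ?_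
      obtain ⟨a1, a2⟩ := Finset.mem_filter.1 hS
      rw [← lA_eq' hP (Finset.mem_powerset.1 a1) ht a2 hv h2, hf3 P S hP (Finset.mem_powerset.1 a1)]
    rw [h1, sumT hP t, ← hη]
    unfold f3
    by_cases h : Even (D.factorization 3)
    · simp only [if_pos h]
      have h3 := gs_split (P := P) (L := L) (V := VV D) (s := su t) (e := e2 D) (1 + κ)
        ((1 + κ) * η) 0 0
      rw [show (1 + κ) * (X1 + η * X2) = (1 + κ) * X1 + ((1 + κ) * η) * X2 + 0 * X3 + 0 * X4 by ring,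
        ← h3]
      refine Finset.sum_congr rfl fun S _ => ?_
      ring
    · simp only [if_neg h]
      have h3 := gs_split (P := P) (L := L) (V := VV D) (s := su t) (e := e2 D) 1 η κ (η * κ)
      rw [show X1 + η * X2 + κ * X3 + η * κ * X4 = 1 * X1 + η * X2 + κ * X3 + η * κ * X4 by ring,
        ← h3]
      refine Finset.sum_congr rfl fun S _ => ?_
      ring
  rw [e1]
  unfold RV
  by_cases hev : Even (D.factorization 3)
  · rw [if_pos hev, if_neg (fun h => h.2.2 hev), sub_zero]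
    refine ⟨?_, dvd_zero _⟩
    rw [pow_succ, mul_comm ((2 : ℤ) ^ _) 2]
    refine mul_dvd_mul ?_ (dvd_add A1.1 (Dvd.dvd.mul_left A2.1 _))
    have := hκ.odd
    omega
  · rw [if_neg hev, if_pos ⟨h5, h2, hev⟩]
    refine ⟨?_, dvd_add (dvd_add (dvd_add B1 B2) B3) B4⟩
    have e : X1 + η * X2 + κ * X3 + η * κ * X4 - (Y1 + Y2 + Y3 + Y4) =
        (1 * X1 - Y1) + (η * X2 - Y2) + (κ * X3 - Y3) + (η * κ * X4 - Y4) := by ring
    rw [e]
    exact dvd_add (dvd_add (dvd_add (adj A1.1 A1.2 (Or.inl rfl)) (adj A2.1 A2.2 hηs))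
      (adj A3.1 A3.2 hκ)) (adj A4.1 A4.2 (hηs.mul hκ))

/-- two families together -/
theorem famTT {P : Finset ℕ} (hP : PP P) {t t' D : ℕ} (ht : T15 t) (ht' : T15 t') (hD : 0 < D)
    (h3D : 3 ∣ D) (hv : ∀ l ∈ P, l ∣ D → D.factorization l = 1)
    (h1 : (t = 3 ∨ t = 15) ∨ D.factorization 3 = 1)
    (h1' : (t' = 3 ∨ t' = 15) ∨ D.factorization 3 = 1) :
    (2 : ℤ) ^ P.card ∣ ∑ S ∈ P.powerset.filter (fun S => pr S % 4 = rt t), loc (t * pr S) D +
      ∑ S ∈ P.powerset.filter (fun S => pr S % 4 = rt t'), loc (t' * pr S) D := by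
  obtain ⟨a1, a2⟩ := famT hP ht hD h3D hv h1
  obtain ⟨b1, -⟩ := famT hP ht' hD h3D hv h1'
  set U := ∑ S ∈ P.powerset.filter (fun S => pr S % 4 = rt t), loc (t * pr S) D
  set W := ∑ S ∈ P.powerset.filter (fun S => pr S % 4 = rt t'), loc (t' * pr S) D
  have h : (2 : ℤ) ^ (P.card + 1) ∣ 2 * (U + W) := by
    have e : 2 * (U + W) = (2 * U - RV P D) + (2 * W - RV P D) + 2 * RV P D := by ring
    rw [e]
    refine dvd_add (dvd_add a1 b1) ?_
    rw [pow_succ, mul_comm ((2 : ℤ) ^ _) 2]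
    exact mul_dvd_mul_left 2 a2
  rw [pow_succ, mul_comm ((2 : ℤ) ^ _) 2] at h
  exact (mul_dvd_mul_iff_left (by norm_num : (2 : ℤ) ≠ 0)).1 h

/-- the inner product zero -/
theorem loc0 {P S : Finset ℕ} (hP : PP P) (hS : S ⊆ P) {t D : ℕ} (ht : T15 t) (hD : 0 < D)
    (h3D : 3 ∣ D) (hv : ∀ l ∈ P, D.factorization l = 1) (h1 : (t = 3 ∨ t = 15) ∨ D.factorization 3 = 1) :
    (2 : ℤ) ^ (P.card + 1) ∣ loc (t * pr S) D := by
  obtain ⟨κ, hκ, hf3⟩ := fac3_eq ht hD h3D h1
  rw [loc_eq3 hD h3D]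
  split_ifs with h5
  swap
  · exact dvd_zero _
  have hd : ∀ l ∈ P, l ∣ D := fun l hl => by
    have := hv l hl
    exact Nat.dvd_of_factorization_pos (by omega)
  have hPL : P ⊆ L0 D := by
    intro l hl
    obtain ⟨a1, a2, a3, a4⟩ := hP l hl
    unfold L0
    simp only [Finset.mem_erase, Nat.mem_primeFactors]
    exact ⟨a4, a3, a2, a1, hd l hl, hD.ne'⟩
  have e1 : (2 : ℤ) ∣ fac (t * pr S) D 3 := by
    rw [hf3 P S hP hS]
    unfold f3
    have hx : Sgn (∏ p ∈ S, x3 p) := Sgn.prod fun p _ => x3_sgn p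
    split_ifs
    · have := hκ.odd
      omega
    · have := (hκ.mul hx).odd
      omega
  have e2 : (2 : ℤ) ^ P.card ∣ ∏ l ∈ L0 D, fac (t * pr S) D l := by
    refine Dvd.dvd.trans ?_ (Finset.prod_dvd_prod_of_subset _ _ _ hPL)
    rw [← Finset.prod_const]
    refine Finset.prod_dvd_prod_of_dvd _ _ fun l hl => ?_
    obtain ⟨a1, a2, a3, a4⟩ := hP l hl
    rw [fac_prod' hP hS ht a1 a3 a4 (fun _ => hv l hl), hv l hl, Finset.sum_range_succ,
      Finset.sum_range_one, pow_zero, pow_one]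
    have hs1 : Sgn (jacobiSym (-(t : ℤ)) l) := by
      apply jac_sgn a1
      rw [dvd_neg]
      intro h
      exact ht.cop a1 a3 a4 (by exact_mod_cast h)
    have hs2 : Sgn (∏ p ∈ S, ee D l p) := Sgn.prod fun p hp =>
      ee_sgn hP a1 hD.ne' (hd l hl) (fun _ => hv l hl) (hS hp)
    have := (hs1.mul hs2).odd
    omega
  rw [pow_succ, mul_comm ((2 : ℤ) ^ _) 2]
  refine mul_dvd_mul e1 ?_
  unfold lA
  exact Dvd.dvd.mul_left e2 _

end Pool.Agent.N218.P15
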