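import Pool.Agent.N218.P15.UE

/-!
# P15: the parity of the Gross sums, even discriminants
-/

set_option autoImplicit false

namespace Pool.Agent.N218.P15

open Finset
open Pool.Agent.N969.P15
open Pool.Agent.N871.P15 (rr_three cc_three rr_zero cc_zero card_mul odd_dvd_cancel mod_div ind33 ind32
  s_U33 s_U32 s_REL33 s_REL32 s_REL31)

theorem card_cop {a b : ℕ} (h : Nat.Coprime a b) (ha : a ≠ 0) (hb : b ≠ 0) :
    (a * b).primeFactors.card = a.primeFactors.card + b.primeFactors.card := by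
  rw [Nat.primeFactors_mul ha hb, Finset.card_union_of_disjoint h.disjoint_primeFactors]

theorem rcast : rr ((3 * 1 : ℕ) : ℤ) = 2 := by
  have : ((3 * 1 : ℕ) : ℤ) = 3 := by norm_num
  rw [this, rr_three]

theorem res5a {x y z : ℕ} (h : x % 5 * (y % 5) % 5 = z % 5) (hx : x % 5 = 1 ∨ x % 5 = 4)
    (hz : z % 5 = 1 ∨ z % 5 = 4) : y % 5 = 1 ∨ y % 5 = 4 := by
  rcases hx with hx | hx <;> rw [hx] at h <;> omega

theorem res5b {x y z : ℕ} (h : x % 5 * (y % 5) % 5 = z % 5) (hx : x % 5 = 1 ∨ x % 5 = 4)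
    (hz : z % 5 = 2 ∨ z % 5 = 3) : y % 5 = 2 ∨ y % 5 = 3 := by
  rcases hx with hx | hx <;> rw [hx] at h <;> omega

theorem res5c {x y z : ℕ} (h : x % 5 * (y % 5) % 5 = z % 5) (hx : x % 5 = 2 ∨ x % 5 = 3)
    (hz : z % 5 = 2 ∨ z % 5 = 3) : y % 5 = 1 ∨ y % 5 = 4 := by
  rcases hx with hx | hx <;> rw [hx] at h <;> omega

theorem res5d {d : ℕ} (h5 : ¬ 5 ∣ d) (h : ¬ (d % 5 = 1 ∨ d % 5 = 4)) :
    (3 * d) % 5 = 1 ∨ (3 * d) % 5 = 4 := by
  have : d % 5 = 2 ∨ d % 5 = 3 := by omega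
  rcases this with h | h
  · left; omega
  · right; omega

theorem res5e {d : ℕ} (h5 : ¬ 5 ∣ d) (h : ¬ (d % 5 = 2 ∨ d % 5 = 3)) :
    d % 5 = 1 ∨ d % 5 = 4 := by omega

theorem res4a {x y z : ℕ} (h : x % 4 * (y % 4) % 4 = z % 4) (hx : x % 4 = 1) : y % 4 = z % 4 := by
  rw [hx] at h; omega

theorem res4c {x y z : ℕ} (h : x % 4 * (y % 4) % 4 = z % 4) (hx : x % 4 = 3)
    (hz : z % 4 = 1 ∨ z % 4 = 2) : y % 4 = 2 ∨ y % 4 = 3 := by
  rw [hx] at h; omega

theorem five_dvd {d m : ℕ} (hd : d ∣ m) (hm : ¬ 5 ∣ m) : ¬ 5 ∣ d := fun h => hm (h.trans hd)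

/-- quotients by odd divisors of the odd part -/
theorem quo {a c A d : ℕ} (h : Dat c A (4 * a)) (ha : Squarefree a) (hd : d ∣ A) :
    4 * a / d = 4 * (a / d) ∧ Squarefree (a / d) ∧ d * (a / d) = a := by
  have hdm := h.dvd hd
  have hcop : Nat.Coprime d 4 :=
    (show (4 : ℕ) = 2 ^ 2 by norm_num) ▸ ((Nat.coprime_two_right).2 (Nat.odd_iff.2 hdm.2.1)).pow_right 2
  have hda : d ∣ a := hcop.dvd_of_dvd_mul_left hdm.1
  obtain ⟨e, rfl⟩ := hda
  have hd0 : 0 < d := Nat.pos_of_ne_zero (by rintro rfl; simp at ha)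
  have e1 : d * e / d = e := Nat.mul_div_cancel_left _ hd0
  rw [e1]
  refine ⟨?_, ha.squarefree_of_dvd (dvd_mul_left e d), rfl⟩
  rw [show 4 * (d * e) = d * (4 * e) by ring]
  exact Nat.mul_div_cancel_left _ hd0

/-- **PAR3** -/
theorem t_PAR3 (hPC : S_PC) (hR : S_R) (h22 : S_REL22) (hCP : S_CP3) : S_PAR3 := by
  intro m hm
  obtain ⟨g, z, h1, h2⟩ := ind33 hR (s_U33 hPC h22 hCP) m hm
  refine ⟨g, g + 2 * z, h1, ?_, ?_⟩
  · rw [h2, h1, pow_succ _ (_ + 1)]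
    ring
  · rw [Int.odd_add]
    constructor
    · intro h
      exact h.2 (even_two_mul z)
    · intro h
      exact ⟨fun _ => even_two_mul z, fun _ => h⟩

/-- the congruence for the classes `3 m`, even discriminants -/
theorem ind33E (hPC : S_PC) (hR : S_R) (hRE : S_RE) (h22 : S_REL22) (hCP : S_CP3) :
    ∀ m : ℕ, Cls3e m → ∃ g z : ℤ, rr (3 * m : ℕ) = 2 ^ (m.primeFactors.card + 1) * g ∧
      cc (3 * m : ℕ) = rr (3 * m : ℕ) + 2 ^ (m.primeFactors.card + 2) * z := by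
  intro m
  induction m using Nat.strong_induction_on with
  | _ m ih =>
  intro hm
  obtain ⟨⟨a, hma, hsa, ha4⟩, h3, h5⟩ := hm
  have h5' : ¬ 5 ∣ m := by omega
  obtain ⟨c, A, h⟩ := dat_of hsa
  rw [← hma] at h
  have hm0 := h.pos.ne'
  set k := m.primeFactors.card with hk
  have hkA : k = A.primeFactors.card + 1 := h.card
  have h3a : ¬ 3 ∣ a := fun h' => h3 (by rw [hma]; exact Dvd.dvd.mul_left h' 4)
  have hs3 : Squarefree (3 * a) := by
    rw [Nat.squarefree_mul_iff]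
    exact ⟨(Nat.Prime.coprime_iff_not_dvd Nat.prime_three).2 h3a, Nat.prime_three.squarefree, hsa⟩
  have hc3 : (3 * m).primeFactors.card = k + 1 := by
    rw [card_cop ((Nat.Prime.coprime_iff_not_dvd Nat.prime_three).2 h3) (by norm_num) hm0,
      Nat.Prime.primeFactors Nat.prime_three, Finset.card_singleton, add_comm]
  obtain ⟨g, hg, -⟩ := hRE (3 * m) ⟨3 * a, by rw [hma]; ring, hs3, by omega⟩ (by omega)
  rw [hc3] at hg
  set R := rr (3 * m : ℕ) with hRd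
  set C := cc (3 * m : ℕ) with hCd
  set Q : ℕ → ℤ := fun d => 12 * (cp0 (3 * d : ℕ) (3 * (m / d) : ℕ) : ℤ) with hQ
  have hQ1 : ∀ d, d ∣ m → Q d = 3 * rr (3 * d : ℕ) * rr (3 * (m / d) : ℕ) +
      cc (3 * d : ℕ) * cc (3 * (m / d) : ℕ) := by
    intro d hd
    have h3d : ¬ 3 ∣ d := fun h => h3 (h.trans hd)
    have h3d' : ¬ 3 ∣ m / d := fun h => h3 (h.trans (Nat.div_dvd_of_dvd hd))
    exact s_REL33 (3 * d) (3 * (m / d)) (Dvd.intro _ rfl) (by omega) (Dvd.intro _ rfl) (by omega)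
  have hQone : Q 1 = 6 * (R - C) := by
    rw [hQ1 1 (one_dvd m), Nat.div_one]
    have : ((3 * 1 : ℕ) : ℤ) = 3 := by norm_num
    rw [this, rr_three, cc_three]
    ring
  have hQd : ∀ d, d ∣ A → d % 4 = 1 → 1 < d → (2 : ℤ) ^ (k + 3) ∣ Q d := by
    intro d hdA hd4 hd1
    have hdm := h.dvd hdA
    have hd := hdm.1
    rw [hQ1 d hd]
    by_cases hd5 : d % 5 = 1 ∨ d % 5 = 4
    · have hmd5 := mod_div (q := 5) hd
      have e1 : d * (m / d) = m := Nat.mul_div_cancel' hd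
      have c1 : Cls3 d := ⟨h.hs.squarefree_of_dvd hdA, hd4, fun h => h3 (h.trans hd), hd5⟩
      have hq := quo (hma ▸ h) hsa hdA
      have hqa : (d % 4) * ((a / d) % 4) % 4 = a % 4 := by rw [← Nat.mul_mod, hq.2.2]
      have c2 : Cls3e (m / d) := by
        refine ⟨⟨a / d, by rw [hma]; exact hq.1, hq.2.1, ?_⟩,
          fun h => h3 (h.trans (Nat.div_dvd_of_dvd hd)), ?_⟩
        · rw [res4a hqa hd4]; exact ha4
        · exact res5a hmd5 hd5 h5
      obtain ⟨g1, z1, r1, s1⟩ := ind33 hR (s_U33 hPC h22 hCP) d c1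
      obtain ⟨g2, z2, r2, s2⟩ := ih (m / d) (Nat.div_lt_self (by omega) hd1) c2
      have hcard : k = d.primeFactors.card + (m / d).primeFactors.card := by
        have hmd0 : m / d ≠ 0 := by
          intro h0; rw [h0, mul_zero] at e1; exact hm0 e1.symm
        rw [hk, ← card_cop hdm.2.2.2.1 (by omega) hmd0, e1]
      rw [s1, s2, r1, r2, hcard]
      refine ⟨2 * g1 * g2 + g1 * z2 + g2 * z1 + 2 * z1 * z2, ?_⟩
      ring
    · have := res5d (five_dvd hd h5') hd5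
      rw [rr_zero this, cc_zero this]
      simp
  -- the sum
  have hnsq : ∀ b : ℤ, b ^ 2 ≠ (m : ℤ) := by
    intro b hb
    rw [hma] at hb
    have h2b : (2 : ℤ) ∣ b := by
      have : (2 : ℤ) ∣ b ^ 2 := by rw [hb]; push_cast; exact ⟨2 * a, by ring⟩
      exact Int.prime_two.dvd_of_dvd_pow this
    obtain ⟨x, rfl⟩ := h2b
    have h6 : x ^ 2 = (a : ℤ) := by push_cast at hb; linarith
    have h7 : x.natAbs * x.natAbs = a := by
      have : ((x.natAbs * x.natAbs : ℕ) : ℤ) = a := by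
        push_cast
        rw [← h6, ← sq, sq_abs]
      exact_mod_cast this
    have h8 := Nat.isUnit_iff.1 (hsa x.natAbs (by rw [h7]))
    rw [h8] at h7
    omega
  have hsum := core33 hPC h22 hCP h h3 h5 hnsq
  set D := A.divisors.filter (fun d => d % 4 = 1) with hD
  have e1 : 12 * ∑ d ∈ D, (cp0 (3 * d : ℕ) (3 * (m / d) : ℕ) : ℤ) = ∑ d ∈ D, Q d := by
    rw [Finset.mul_sum]
  have h1D : 1 ∈ D := by
    rw [hD, Finset.mem_filter, Nat.mem_divisors]
    exact ⟨⟨one_dvd A, h.hs.ne_zero⟩, by norm_num⟩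
  have e3 : (2 : ℤ) ^ (k + 3) ∣ ∑ d ∈ D.erase 1, Q d := by
    refine Finset.dvd_sum fun d hd => ?_
    rw [Finset.mem_erase, hD, Finset.mem_filter, Nat.mem_divisors] at hd
    obtain ⟨hd1, ⟨hdA, -⟩, hd4⟩ := hd
    exact hQd d hdA hd4 (by omega)
  obtain ⟨c', hc'⟩ := hsum
  obtain ⟨w, hw⟩ := e3
  rw [hc', ← Finset.add_sum_erase _ _ h1D, hw, hQone] at e1
  have e4 : (2 : ℤ) ^ (k + 2) ∣ 3 * (C - R) := by
    refine ⟨w - 3 * c', ?_⟩
    have : 2 * (3 * (C - R)) = 2 * (2 ^ (k + 2) * (w - 3 * c')) := by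
      have e5 : (2 : ℤ) ^ (k + 3) = 2 * 2 ^ (k + 2) := by rw [pow_succ']
      have e6 : (2 : ℤ) ^ (k + 2) = 2 * 2 ^ (A.primeFactors.card + 2) := by
        rw [hkA, ← pow_succ']
      rw [e5, e6] at e1
      rw [e6]
      linear_combination e1
    linarith
  obtain ⟨z, hz⟩ := odd_dvd_cancel e4
  exact ⟨g, z, hg, by linarith⟩

/-- **PAR3E** -/
theorem t_PAR3E (hPC : S_PC) (hR : S_R) (hRE : S_RE) (h22 : S_REL22) (hCP : S_CP3) : S_PAR3E := by
  intro m hm
  obtain ⟨g, z, h1, h2⟩ := ind33E hPC hR hRE h22 hCP m hm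
  refine ⟨g, g + 2 * z, h1, ?_, ?_⟩
  · rw [h2, h1, pow_succ _ (_ + 1)]
    ring
  · rw [Int.odd_add]
    constructor
    · intro h
      exact h.2 (even_two_mul z)
    · intro h
      exact ⟨fun _ => even_two_mul z, fun _ => h⟩

/-- the congruence for the classes of the main theorem, even discriminants -/
theorem ind32E (hPC : S_PC) (hR : S_R) (hRE : S_RE) (h22 : S_REL22) (hCP : S_CP3) :
    ∀ n : ℕ, Cls0e n → ∃ g z : ℤ, rr n = 2 ^ n.primeFactors.card * g ∧ (Odd g ↔ Qe n) ∧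
      cc n = rr n + 2 ^ (n.primeFactors.card + 1) * z := by
  intro n
  induction n using Nat.strong_induction_on with
  | _ n ih =>
  intro hn
  obtain ⟨hev, h3n, h5⟩ := hn
  have h5' : ¬ 5 ∣ n := by omega
  obtain ⟨g, hg, hgQ⟩ := hRE n hev h5
  obtain ⟨a, hna, hsa, ha4⟩ := hev
  obtain ⟨c, A, h⟩ := dat_of hsa
  rw [← hna] at h
  have hn0 := h.pos.ne'
  set t := n.primeFactors.card with ht
  have htA : t = A.primeFactors.card + 1 := h.card
  have h3 : ¬ 3 ∣ n := by omega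
  -- the first family
  set Q : ℕ → ℤ := fun d => 6 * (cp0 (3 * d : ℕ) (n / d : ℕ) : ℤ) with hQ
  have hQ1 : ∀ d, d ∣ n → n / d % 3 = 2 → Q d = 3 * rr (3 * d : ℕ) * rr (n / d : ℕ) +
      cc (3 * d : ℕ) * cc (n / d : ℕ) := by
    intro d hd h
    have h3d : ¬ 3 ∣ d := fun h => h3 (h.trans hd)
    exact s_REL32 (3 * d) (n / d) (Dvd.intro _ rfl) (by omega) h
  have hQone : Q 1 = 6 * (rr n - cc n) := by
    rw [hQ1 1 (one_dvd n) (by rw [Nat.div_one]; omega), Nat.div_one]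
    have : ((3 * 1 : ℕ) : ℤ) = 3 := by norm_num
    rw [this, rr_three, cc_three]
    ring
  have hQd : ∀ d, d ∣ A → d % 4 = 1 → 1 < d → (2 : ℤ) ^ (t + 2) ∣ Q d := by
    intro d hdA hd4 hd1
    have hdm := h.dvd hdA
    have hd := hdm.1
    have h3d : ¬ 3 ∣ d := fun h => h3 (h.trans hd)
    have hnd3 := mod_div (q := 3) hd
    have hnd5 := mod_div (q := 5) hd
    have h3d' : ¬ 3 ∣ n / d := fun h => h3 (h.trans (Nat.div_dvd_of_dvd hd))
    by_cases h32 : n / d % 3 = 2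
    swap
    · have : Q d = 0 := by
        have := s_REL31 (3 * d) (n / d) (Dvd.intro _ rfl) (by omega) (by omega)
        simp only [hQ]
        rw [this]
        rfl
      rw [this]
      exact dvd_zero _
    rw [hQ1 d hd h32]
    by_cases hd5 : d % 5 = 1 ∨ d % 5 = 4
    · have e1 : d * (n / d) = n := Nat.mul_div_cancel' hd
      have c1 : Cls3 d := ⟨h.hs.squarefree_of_dvd hdA, hd4, h3d, hd5⟩
      have hq := quo (hna ▸ h) hsa hdA
      have hqa : (d % 4) * ((a / d) % 4) % 4 = a % 4 := by rw [← Nat.mul_mod, hq.2.2]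
      have c2 : Cls0e (n / d) := by
        refine ⟨⟨a / d, by rw [hna]; exact hq.1, hq.2.1, ?_⟩, h32, ?_⟩
        · rw [res4a hqa hd4]; exact ha4
        · exact res5b hnd5 hd5 h5
      obtain ⟨g1, z1, r1, s1⟩ := ind33 hR (s_U33 hPC h22 hCP) d c1
      obtain ⟨g2, z2, r2, -, s2⟩ := ih (n / d) (Nat.div_lt_self (by omega) hd1) c2
      have hcard : t = d.primeFactors.card + (n / d).primeFactors.card := by
        have hmd0 : n / d ≠ 0 := by
          intro h0; rw [h0, mul_zero] at e1; exact hn0 e1.symm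
        rw [ht, ← card_cop hdm.2.2.2.1 (by omega) hmd0, e1]
      rw [s1, s2, r1, r2, hcard]
      refine ⟨2 * g1 * g2 + g1 * z2 + g2 * z1 + 2 * z1 * z2, ?_⟩
      ring
    · have := res5d (five_dvd hd h5') hd5
      rw [rr_zero this, cc_zero this]
      simp
  -- the second family
  set Q' : ℕ → ℤ := fun d => 6 * (cp0 (d : ℕ) (3 * (n / d) : ℕ) : ℤ) with hQ'
  have hQd' : ∀ d, d ∣ A → d % 4 = 3 → (2 : ℤ) ^ (t + 2) ∣ Q' d := by
    intro d hdA hd4
    have hdm := h.dvd hdA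
    have hd := hdm.1
    have h3d : ¬ 3 ∣ d := fun h => h3 (h.trans hd)
    have hnd5 := mod_div (q := 5) hd
    have h3d' : ¬ 3 ∣ n / d := fun h => h3 (h.trans (Nat.div_dvd_of_dvd hd))
    simp only [hQ']
    rw [cp0_comm]
    by_cases h32 : d % 3 = 2
    swap
    · have := s_REL31 (3 * (n / d)) d (Dvd.intro _ rfl) (by omega) (by omega)
      rw [this]
      simp
    rw [s_REL32 (3 * (n / d)) d (Dvd.intro _ rfl) (by omega) h32]
    by_cases hd5 : d % 5 = 2 ∨ d % 5 = 3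
    · have e1 : d * (n / d) = n := Nat.mul_div_cancel' hd
      have c1 : Cls0 d := ⟨h.hs.squarefree_of_dvd hdA, by omega⟩
      have hq := quo (hna ▸ h) hsa hdA
      have hqa : (d % 4) * ((a / d) % 4) % 4 = a % 4 := by rw [← Nat.mul_mod, hq.2.2]
      have c2 : Cls3e (n / d) := by
        refine ⟨⟨a / d, by rw [hna]; exact hq.1, hq.2.1, ?_⟩, h3d', ?_⟩
        · exact res4c hqa hd4 ha4
        · exact res5c hnd5 hd5 h5
      obtain ⟨g1, z1, r1, -, s1⟩ := ind32 hR (s_U33 hPC h22 hCP) (s_U32 hPC) d c1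
      obtain ⟨g2, z2, r2, s2⟩ := ind33E hPC hR hRE h22 hCP (n / d) c2
      have hcard : t = d.primeFactors.card + (n / d).primeFactors.card := by
        have hmd0 : n / d ≠ 0 := by
          intro h0; rw [h0, mul_zero] at e1; exact hn0 e1.symm
        rw [ht, ← card_cop hdm.2.2.2.1 (by omega) hmd0, e1]
      rw [s1, s2, r1, r2, hcard]
      refine ⟨2 * g1 * g2 + g1 * z2 + g2 * z1 + 2 * z1 * z2, ?_⟩
      ring
    · have := res5e (five_dvd hd h5') hd5
      rw [rr_zero this, cc_zero this]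
      simp
  have hsum := core32 hPC h h3n (by omega)
  set D := A.divisors.filter (fun d => d % 4 = 1) with hD
  set D' := A.divisors.filter (fun d => d % 4 = 3) with hD'
  have e1 : 6 * (∑ d ∈ D, (cp0 (3 * d : ℕ) (n / d : ℕ) : ℤ) +
      ∑ d ∈ D', (cp0 (d : ℕ) (3 * (n / d) : ℕ) : ℤ)) = ∑ d ∈ D, Q d + ∑ d ∈ D', Q' d := by
    rw [mul_add, Finset.mul_sum, Finset.mul_sum]
  have h1D : 1 ∈ D := by
    rw [hD, Finset.mem_filter, Nat.mem_divisors]
    exact ⟨⟨one_dvd A, h.hs.ne_zero⟩, by norm_num⟩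
  have e3 : (2 : ℤ) ^ (t + 2) ∣ ∑ d ∈ D.erase 1, Q d := by
    refine Finset.dvd_sum fun d hd => ?_
    rw [Finset.mem_erase, hD, Finset.mem_filter, Nat.mem_divisors] at hd
    obtain ⟨hd1, ⟨hdn, -⟩, hd4⟩ := hd
    exact hQd d hdn hd4 (by omega)
  have e3' : (2 : ℤ) ^ (t + 2) ∣ ∑ d ∈ D', Q' d := by
    refine Finset.dvd_sum fun d hd => ?_
    rw [hD', Finset.mem_filter, Nat.mem_divisors] at hd
    exact hQd' d hd.1.1 hd.2
  obtain ⟨c', hc'⟩ := hsum
  obtain ⟨w, hw⟩ := e3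
  obtain ⟨w', hw'⟩ := e3'
  rw [hc', ← Finset.add_sum_erase _ _ h1D, hw, hw', hQone] at e1
  have e4 : (2 : ℤ) ^ (t + 1) ∣ 3 * (cc n - rr n) := by
    refine ⟨w + w' - 3 * c', ?_⟩
    have : 2 * (3 * (cc n - rr n)) = 2 * (2 ^ (t + 1) * (w + w' - 3 * c')) := by
      have e5 : (2 : ℤ) ^ (t + 2) = 2 * 2 ^ (t + 1) := by rw [pow_succ' 2 (t + 1)]
      have e6 : (2 : ℤ) ^ (A.primeFactors.card + 2) = 2 ^ (t + 1) := by rw [htA]
      rw [e5, e6] at e1
      linear_combination e1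
    linarith
  obtain ⟨z, hz⟩ := odd_dvd_cancel e4
  exact ⟨g, z, hg, hgQ, by linarith⟩

/-- **PARE** -/
theorem t_PARE (hPC : S_PC) (hR : S_R) (hRE : S_RE) (h22 : S_REL22) (hCP : S_CP3) : S_PARE := by
  intro n hn
  obtain ⟨g, z, h1, h2, h3⟩ := ind32E hPC hR hRE h22 hCP n hn
  refine ⟨g + 2 * z, ?_, ?_⟩
  · rw [h3, h1, pow_succ]
    ring
  · rw [← h2, Int.odd_add]
    constructor
    · intro h
      exact h.2 (even_two_mul z)
    · intro h
      exact ⟨fun _ => even_two_mul z, fun _ => h⟩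

end Pool.Agent.N218.P15
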