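import Pool.Agent.N218.P15.FiveLoc
import Pool.Agent.N218.P15.ParE
import Pool.Agent.N871.P15.Fin
import Pool.Agent.N575.P15.PC5

/-!
# P15: the divisibility for norms divisible by `5`
-/

set_option autoImplicit false

namespace Pool.Agent.N218.P15

open Finset
open Pool.Agent.N969.P15
open Pool.Agent.N871.P15 (sum_div cp0_sum sum_symm)
open Pool.Agent.Z700 (hh fac)

/-- the pair count for any `n1`, when the discriminant is divisible by `5` at most once -/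
theorem pc_any {n1 n2 D : ℕ} {b : ℤ} (hs : Squarefree n1) (h4 : n1 % 4 = 3) (hD : 0 < D)
    (hDD : (D : ℤ) = n1 * n2 - b ^ 2) (h5 : 5 ∣ D → D.factorization 5 = 1) :
    (cp n1 b n2 : ℤ) = 6 * loc n1 D := by
  by_cases h : 5 ∣ n1
  · rw [Pool.Agent.N575.P15.PC5.t_PC5 n1 n2 b D hs h4 h hD hDD]
    unfold loc
    by_cases h5D : 5 ∣ D
    · rw [if_pos h5D, if_pos (by rw [h5 h5D]; decide)]
    · rw [if_neg h5D, Nat.factorization_eq_zero_of_not_dvd h5D]
      simp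
  · exact Pool.Agent.N972.PC15.t_PC n1 n2 b D hs h4 h hD hDD

theorem val1 {N D l : ℕ} {b : ℤ} (hl : l.Prime) (hN : N ≠ 0) (hv : N.factorization l = 1)
    (hD : D ≠ 0) (hDD : (D : ℤ) = N - b ^ 2) (h : l ∣ D) : D.factorization l = 1 := by
  have h1 : 1 ≤ D.factorization l := (hl.dvd_iff_one_le_factorization hD).1 h
  have hlN : l ∣ N := Nat.dvd_of_factorization_pos (by omega)
  have hb : (l : ℤ) ∣ b := by
    have h6 : (l : ℤ) ∣ b ^ 2 := by
      have e : b ^ 2 = N - D := by rw [hDD]; ring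
      rw [e]
      exact dvd_sub (by exact_mod_cast hlN) (by exact_mod_cast h)
    exact (Nat.prime_iff_prime_int.1 hl).dvd_of_dvd_pow h6
  have h2 : ¬ 2 ≤ D.factorization l := by
    intro h7
    have h8 : l ^ 2 ∣ D := (Nat.Prime.pow_dvd_iff_le_factorization hl hD).2 h7
    have h9 : ((l ^ 2 : ℕ) : ℤ) ∣ N := by
      have e : (N : ℤ) = D + b ^ 2 := by rw [hDD]; ring
      rw [e]
      refine dvd_add (by exact_mod_cast h8) ?_
      push_cast
      exact pow_dvd_pow_of_dvd hb 2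
    have h10 : l ^ 2 ∣ N := by exact_mod_cast h9
    have := (Nat.Prime.pow_dvd_iff_le_factorization hl hN).1 h10
    omega
  omega

theorem x_mod4 {t p : ℕ} (ht : T15 t) (hp : p % 4 = rt t) : (t * p) % 4 = 3 := by
  rw [Nat.mul_mod, hp]
  rcases ht with rfl | rfl | rfl | rfl <;> rfl

theorem sum_symm' {B : ℕ} (hB : 0 < B) (g : ℤ → ℤ) (hg : ∀ b, g (-b) = g b) :
    ∑ b ∈ Ioo (-(B : ℤ)) B, g b = 2 * ∑ b ∈ Ioo (0 : ℤ) B, g b + g 0 := by
  have h1 := sum_symm B (fun b => if b = 0 then 0 else g b) (fun b => by simp [hg])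
    (by simp)
  have h0 : (0 : ℤ) ∈ Ioo (-(B : ℤ)) B := by rw [Finset.mem_Ioo]; omega
  have h2 : ∑ b ∈ Ioo (-(B : ℤ)) B, (if b = 0 then 0 else g b) =
      ∑ b ∈ Ioo (-(B : ℤ)) B, g b - g 0 := by
    rw [← Finset.add_sum_erase _ g h0, ← Finset.add_sum_erase _ _ h0]
    simp only [if_true, zero_add, add_sub_cancel_left]
    refine Finset.sum_congr rfl fun b hb => ?_
    rw [if_neg (Finset.ne_of_mem_erase hb)]
  have h3 : ∑ b ∈ Ioo (0 : ℤ) B, (if b = 0 then 0 else g b) = ∑ b ∈ Ioo (0 : ℤ) B, g b := by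
    refine Finset.sum_congr rfl fun b hb => ?_
    rw [Finset.mem_Ioo] at hb
    rw [if_neg (by omega)]
  rw [h2, h3] at h1
  linarith

/-- the divisibility for two families -/
theorem tot2 {P : Finset ℕ} (hP : PP P) {N t t' : ℕ} (ht : T15 t) (ht' : T15 t') (hN0 : N ≠ 0)
    (h3N : 3 ∣ N) (hv : ∀ l ∈ P, N.factorization l = 1) (hv5 : N.factorization 5 = 1)
    (h9 : ((t = 3 ∨ t = 15) ∧ (t' = 3 ∨ t' = 15)) ∨ ¬ 9 ∣ N)
    (hd : ∀ S ⊆ P, Squarefree (t * pr S) ∧ t * pr S ∣ N)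
    (hd' : ∀ S ⊆ P, Squarefree (t' * pr S) ∧ t' * pr S ∣ N) :
    (2 : ℤ) ^ (P.card + 2) ∣
      ∑ S ∈ P.powerset.filter (fun S => pr S % 4 = rt t),
        (cp0 (t * pr S : ℕ) (N / (t * pr S) : ℕ) : ℤ) +
      ∑ S ∈ P.powerset.filter (fun S => pr S % 4 = rt t'),
        (cp0 (t' * pr S : ℕ) (N / (t' * pr S) : ℕ) : ℤ) := by
  set B : ℕ := Nat.sqrt (N / 9) + 1 with hB
  have hB1 : N < 9 * B ^ 2 := by
    have := Nat.lt_succ_sqrt' (N / 9)
    rw [Nat.succ_eq_add_one, ← hB] at this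
    omega
  have hsq : ∀ b : ℤ, (3 * b) ^ 2 ≠ N := by
    intro b hb
    have h5N : 5 ∣ N := Nat.dvd_of_factorization_pos (by omega)
    have h5b : (5 : ℤ) ∣ 3 * b := by
      have : (5 : ℤ) ∣ (3 * b) ^ 2 := by rw [hb]; exact_mod_cast h5N
      exact (Nat.prime_iff_prime_int.1 Nat.prime_five).dvd_of_dvd_pow this
    have h25 : ((5 ^ 2 : ℕ) : ℤ) ∣ N := by
      rw [← hb]
      push_cast
      exact pow_dvd_pow_of_dvd h5b 2
    have h25' : 5 ^ 2 ∣ N := by exact_mod_cast h25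
    have := (Nat.Prime.pow_dvd_iff_le_factorization Nat.prime_five hN0).1 h25'
    omega
  have hb : ∀ b : ℤ, b ∈ Ioo (-(B : ℤ)) B → 0 < (N : ℤ) - (3 * b) ^ 2 := by
    intro b hb
    rw [Finset.mem_Ioo] at hb
    have h4 : |b| ≤ Nat.sqrt (N / 9) := by
      rw [abs_le]
      constructor <;> omega
    have h5 : b ^ 2 ≤ ((Nat.sqrt (N / 9) ^ 2 : ℕ) : ℤ) := by
      rw [← sq_abs]
      push_cast
      exact pow_le_pow_left₀ (abs_nonneg _) h4 2
    have h6 : ((Nat.sqrt (N / 9) ^ 2 : ℕ) : ℤ) ≤ ((N / 9 : ℕ) : ℤ) := by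
      exact_mod_cast Nat.sqrt_le' (N / 9)
    have h7 : (3 * b) ^ 2 ≤ N := by
      have : (3 * b) ^ 2 = 9 * b ^ 2 := by ring
      rw [this]
      omega
    have h9 : (3 * b) ^ 2 < N := lt_of_le_of_ne h7 (hsq b)
    linarith
  have gen : ∀ u : ℕ, T15 u → (∀ S ⊆ P, Squarefree (u * pr S) ∧ u * pr S ∣ N) →
      ∀ S ∈ P.powerset.filter (fun S => pr S % 4 = rt u),
      (cp0 (u * pr S : ℕ) (N / (u * pr S) : ℕ) : ℤ) =
        ∑ b ∈ Ioo (-(B : ℤ)) B, 6 * loc (u * pr S) ((N : ℤ) - (3 * b) ^ 2).toNat := by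
    intro u hu hdu S hS
    obtain ⟨a1, a2⟩ := Finset.mem_filter.1 hS
    obtain ⟨b1, b2⟩ := hdu S (Finset.mem_powerset.1 a1)
    have e2 : u * pr S * (N / (u * pr S)) = N := Nat.mul_div_cancel' b2
    rw [cp0_sum (B := B) (by rw [e2]; exact hB1)]
    refine Finset.sum_congr rfl fun b hb' => ?_
    have hpos := hb b hb'
    have hDD : ((((N : ℤ) - (3 * b) ^ 2).toNat : ℕ) : ℤ) = (N : ℤ) - (3 * b) ^ 2 :=
      Int.toNat_of_nonneg hpos.le
    refine pc_any b1 (x_mod4 hu a2) (by omega) ?_ ?_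
    · rw [hDD]
      have : ((u * pr S : ℕ) : ℤ) * ((N / (u * pr S) : ℕ) : ℤ) = N := by exact_mod_cast e2
      rw [this]
    · exact fun h => val1 Nat.prime_five hN0 hv5 (by omega) hDD h
  rw [Finset.sum_congr rfl (gen t ht hd), Finset.sum_congr rfl (gen t' ht' hd'),
    Finset.sum_comm, Finset.sum_comm (s := P.powerset.filter (fun S => pr S % 4 = rt t')),
    ← Finset.sum_add_distrib]
  set g : ℤ → ℤ := fun b =>
    ∑ S ∈ P.powerset.filter (fun S => pr S % 4 = rt t), loc (t * pr S) ((N : ℤ) - (3 * b) ^ 2).toNat +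
    ∑ S ∈ P.powerset.filter (fun S => pr S % 4 = rt t'),
      loc (t' * pr S) ((N : ℤ) - (3 * b) ^ 2).toNat with hg
  have e3 : ∀ b ∈ Ioo (-(B : ℤ)) B,
      (∑ S ∈ P.powerset.filter (fun S => pr S % 4 = rt t),
        6 * loc (t * pr S) ((N : ℤ) - (3 * b) ^ 2).toNat +
      ∑ S ∈ P.powerset.filter (fun S => pr S % 4 = rt t'),
        6 * loc (t' * pr S) ((N : ℤ) - (3 * b) ^ 2).toNat) = 6 * g b := by
    intro b _
    simp only [hg]
    rw [mul_add, Finset.mul_sum, Finset.mul_sum]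
  rw [Finset.sum_congr rfl e3, ← Finset.mul_sum, sum_symm' (by omega) g]
  rotate_left
  · intro b
    have : (3 * -b) ^ 2 = (3 * b) ^ 2 := by ring
    simp only [hg]
    rw [this]
  -- the local facts
  have fac : ∀ b ∈ Ioo (-(B : ℤ)) B, 0 < ((N : ℤ) - (3 * b) ^ 2).toNat ∧
      3 ∣ ((N : ℤ) - (3 * b) ^ 2).toNat ∧
      ((((N : ℤ) - (3 * b) ^ 2).toNat : ℕ) : ℤ) = (N : ℤ) - (3 * b) ^ 2 ∧
      (((t = 3 ∨ t = 15) ∧ (t' = 3 ∨ t' = 15)) ∨
        (((N : ℤ) - (3 * b) ^ 2).toNat).factorization 3 = 1) := by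
    intro b hb'
    have hpos := hb b hb'
    have hDD : ((((N : ℤ) - (3 * b) ^ 2).toNat : ℕ) : ℤ) = (N : ℤ) - (3 * b) ^ 2 :=
      Int.toNat_of_nonneg hpos.le
    set D := ((N : ℤ) - (3 * b) ^ 2).toNat with hD
    have hsq9 : (3 * b) ^ 2 = 9 * b ^ 2 := by ring
    rw [hsq9] at hDD
    have h3D : 3 ∣ D := by omega
    refine ⟨by omega, h3D, by rw [hDD, hsq9], ?_⟩
    rcases h9 with h9 | h9
    · exact Or.inl h9
    · right
      have h1 : 1 ≤ D.factorization 3 :=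
        (Nat.prime_three.dvd_iff_one_le_factorization (by omega)).1 h3D
      have h2 : ¬ 2 ≤ D.factorization 3 := by
        intro h7
        have h8 : 3 ^ 2 ∣ D := (Nat.Prime.pow_dvd_iff_le_factorization Nat.prime_three (by omega)).2 h7
        omega
      omega
  have key1 : ∀ b ∈ Ioo (0 : ℤ) B, (2 : ℤ) ^ P.card ∣ g b := by
    intro b hb'
    have hb'' : b ∈ Ioo (-(B : ℤ)) B := by
      rw [Finset.mem_Ioo] at hb' ⊢
      omega
    obtain ⟨f1, f2, f3, f4⟩ := fac b hb''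
    refine famTT hP ht ht' f1 f2 (fun l hl h => val1 (hP l hl).1 hN0 (hv l hl) (by omega) f3 h) ?_ ?_
    · rcases f4 with f4 | f4
      · exact Or.inl f4.1
      · exact Or.inr f4
    · rcases f4 with f4 | f4
      · exact Or.inl f4.2
      · exact Or.inr f4
  have key0 : (2 : ℤ) ^ (P.card + 1) ∣ g 0 := by
    have h0 : (0 : ℤ) ∈ Ioo (-(B : ℤ)) B := by rw [Finset.mem_Ioo]; omega
    obtain ⟨f1, f2, f3, f4⟩ := fac 0 h0
    have hDN : ((N : ℤ) - (3 * 0) ^ 2).toNat = N := by simp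
    rw [hDN] at f1 f2 f4
    simp only [hg]
    rw [hDN]
    refine dvd_add (Finset.dvd_sum fun S hS => ?_) (Finset.dvd_sum fun S hS => ?_)
    · obtain ⟨a1, a2⟩ := Finset.mem_filter.1 hS
      refine loc0 hP (Finset.mem_powerset.1 a1) ht f1 f2 hv ?_
      rcases f4 with f4 | f4
      · exact Or.inl f4.1
      · exact Or.inr f4
    · obtain ⟨a1, a2⟩ := Finset.mem_filter.1 hS
      refine loc0 hP (Finset.mem_powerset.1 a1) ht' f1 f2 hv ?_
      rcases f4 with f4 | f4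
      · exact Or.inl f4.2
      · exact Or.inr f4
  obtain ⟨c1, hc1⟩ := Finset.dvd_sum key1
  obtain ⟨c0, hc0⟩ := key0
  rw [hc1, hc0]
  refine ⟨3 * c1 + 3 * c0, ?_⟩
  rw [pow_add, pow_succ]
  ring

end Pool.Agent.N218.P15
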