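import Pool.Agent.N218.P15.Abs

/-!
# P15: sums over the factorizations for a fixed inner product
-/

set_option autoImplicit false

namespace Pool.Agent.N218.P15

open Finset
open Pool.Agent.N969.P15
open Pool.Agent.Z700 (hh fac)

/-- exponents: at `2` shifted by two -/
def VV (D l : ℕ) : ℕ := if l = 2 then D.factorization 2 - 2 else D.factorization l

/-- the local signs, all primes -/
def e2 (D l p : ℕ) : ℤ := if l = 2 then x8 p else if l = 3 then x3 p else ee D l p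

/-- the initial signs for `t = 3`, `1` -/
def st (t : ℕ) (c3 : ℤ) (l : ℕ) : ℤ :=
  if l = 2 then (if t = 3 then -1 else 1) else if l = 3 then c3 else jacobiSym (-(t : ℤ)) l

/-- the primes away from `30` -/
def L0 (D : ℕ) : Finset ℕ := ((D.primeFactors.erase 2).erase 3).erase 5

theorem mem_L0 {D l : ℕ} (h : l ∈ L0 D) : l.Prime ∧ l ∣ D ∧ l ≠ 2 ∧ l ≠ 3 ∧ l ≠ 5 := by
  unfold L0 at h
  simp only [Finset.mem_erase, Nat.mem_primeFactors] at h
  exact ⟨h.2.2.2.1, h.2.2.2.2.1, h.2.2.1, h.2.1, h.1⟩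

/-- the common part of the local densities -/
def lA (n1 D : ℕ) : ℤ := tw n1 D * ∏ l ∈ L0 D, fac n1 D l

theorem tw_small (n1 : ℕ) {D : ℕ} (h : D.factorization 2 < 2) : tw n1 D = 0 := by
  unfold tw
  have : D.factorization 2 - 1 = 0 := by omega
  rw [this]
  simp

theorem lA_small (n1 : ℕ) {D : ℕ} (h : D.factorization 2 < 2) : lA n1 D = 0 := by
  unfold lA
  rw [tw_small n1 h, zero_mul]

/-- the class condition -/
def Cc (t : ℕ) (S : Finset ℕ) : Prop := (t = 3 ∧ pr S % 4 = 1) ∨ (t = 1 ∧ pr S % 4 = 3)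

theorem Cc.t {t : ℕ} {S : Finset ℕ} (h : Cc t S) : t = 1 ∨ t = 3 := by
  rcases h with h | h
  · exact Or.inr h.1
  · exact Or.inl h.1

theorem lA_eq {P S : Finset ℕ} (hP : PP P) (hS : S ⊆ P) {t D : ℕ} (hc : Cc t S) (c3 : ℤ)
    (hv : ∀ l ∈ P, l ∣ D → D.factorization l = 1) (h2 : 2 ≤ D.factorization 2) :
    lA (t * pr S) D = FF (insert 2 (L0 D)) (VV D) (st t c3) (e2 D) S := by
  unfold lA FF
  have h2n : 2 ∉ L0 D := fun h => (mem_L0 h).2.2.1 rfl
  rw [Finset.prod_insert h2n]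
  have hf := pr_facts (hP.sub hS)
  congr 1
  · unfold tw VV st e2
    rw [if_pos rfl]
    simp only [if_true]
    rw [hf.2.2.2.2, show D.factorization 2 - 1 = D.factorization 2 - 2 + 1 by omega]
    refine Finset.sum_congr rfl fun j _ => ?_
    congr 1
    unfold x8
    rcases hc with ⟨rfl, h⟩ | ⟨rfl, h⟩
    · simp only [if_true]
      have h8 : pr S % 8 = 1 ∨ pr S % 8 = 5 := by omega
      rcases h8 with h8 | h8
      · rw [if_neg (by omega), if_pos (Or.inl h8)]; norm_num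
      · rw [if_pos (by omega), if_neg (by omega)]; norm_num
    · have h8 : pr S % 8 = 3 ∨ pr S % 8 = 7 := by omega
      rcases h8 with h8 | h8
      · rw [if_neg (by omega), if_neg (by omega), if_neg (by omega)]; norm_num
      · rw [if_pos (by omega), if_pos (Or.inr h8)]; norm_num
  · refine Finset.prod_congr rfl fun l hl => ?_
    obtain ⟨a1, a2, a3, a4, a5⟩ := mem_L0 hl
    rw [fac_prod hP hS hc.t a1 a4 (fun h => hv l h a2)]
    unfold VV st e2
    simp only [if_neg a3, if_neg a4]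

theorem st_sgn {t : ℕ} (ht : t = 1 ∨ t = 3) {c3 : ℤ} (hc : Sgn c3) {D l : ℕ}
    (hl : l ∈ insert 2 (insert 3 (L0 D))) : Sgn (st t c3 l) := by
  unfold st
  by_cases h2 : l = 2
  · rw [if_pos h2]
    split_ifs <;> simp [Sgn]
  · rw [if_neg h2]
    by_cases h3 : l = 3
    · rw [if_pos h3]; exact hc
    · rw [if_neg h3]
      have hl' : l ∈ L0 D := by
        simp only [Finset.mem_insert] at hl
        tauto
      obtain ⟨a1, a2, a3, a4, a5⟩ := mem_L0 hl'
      apply jac_sgn a1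
      intro h
      rw [dvd_neg] at h
      have h' : l ∣ t := by exact_mod_cast h
      rcases ht with rfl | rfl
      · exact a1.one_lt.ne' (Nat.dvd_one.1 h')
      · exact h3 ((Nat.prime_dvd_prime_iff_eq a1 Nat.prime_three).1 h')

theorem e2_sgn {P : Finset ℕ} (hP : PP P) {D l p : ℕ} (hD : D ≠ 0)
    (hv : ∀ l ∈ P, l ∣ D → D.factorization l = 1) (hl : l ∈ insert 2 (insert 3 (L0 D)))
    (hp : p ∈ P) : Sgn (e2 D l p) := by
  unfold e2
  by_cases h2 : l = 2
  · rw [if_pos h2]; exact x8_sgn p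
  · rw [if_neg h2]
    by_cases h3 : l = 3
    · rw [if_pos h3]; exact x3_sgn p
    · rw [if_neg h3]
      have hl' : l ∈ L0 D := by
        simp only [Finset.mem_insert] at hl
        tauto
      obtain ⟨a1, a2, a3, a4, a5⟩ := mem_L0 hl'
      exact ee_sgn hP a1 hD a2 (fun h => hv l h a2) hp

/-- sums over the subsets with product `≡ 1 mod 4` -/
theorem sumH {P : Finset ℕ} (hP : PP P) (f : Finset ℕ → ℤ) :
    2 * ∑ S ∈ P.powerset.filter (fun S => pr S % 4 = 1), f S =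
      ∑ S ∈ P.powerset, (1 + ∏ p ∈ S, x4 p) * f S := by
  rw [Finset.sum_filter, Finset.mul_sum]
  refine Finset.sum_congr rfl fun S hS => ?_
  have hf := pr_facts (hP.sub (Finset.mem_powerset.1 hS))
  rw [hf.2.2.1]
  unfold x4
  split_ifs <;> ring

theorem sumHc {P : Finset ℕ} (hP : PP P) (f : Finset ℕ → ℤ) :
    2 * ∑ S ∈ P.powerset.filter (fun S => pr S % 4 = 3), f S =
      ∑ S ∈ P.powerset, (1 - ∏ p ∈ S, x4 p) * f S := by
  rw [Finset.sum_filter, Finset.mul_sum]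
  refine Finset.sum_congr rfl fun S hS => ?_
  have hf := pr_facts (hP.sub (Finset.mem_powerset.1 hS))
  rw [hf.2.2.1]
  unfold x4
  have := hf.1
  split_ifs <;> omega

theorem sumK {P : Finset ℕ} (hP : PP P) (f : Finset ℕ → ℤ) :
    4 * ∑ S ∈ P.powerset.filter (fun S => pr S % 4 = 3 ∧ pr S % 3 = 2), f S =
      ∑ S ∈ P.powerset, ((1 - ∏ p ∈ S, x4 p) * (1 - ∏ p ∈ S, x3 p)) * f S := by
  rw [Finset.sum_filter, Finset.mul_sum]
  refine Finset.sum_congr rfl fun S hS => ?_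
  have hf := pr_facts (hP.sub (Finset.mem_powerset.1 hS))
  rw [hf.2.2.1, hf.2.2.2.1]
  unfold x4 x3
  have h1 := hf.1
  have h2 := hf.2.1
  by_cases h3 : pr S % 4 = 1
  · rw [if_neg (by omega), if_pos h3]; ring
  · rw [if_neg h3]
    by_cases h4 : pr S % 3 = 1
    · rw [if_neg (by omega), if_pos h4]; ring
    · rw [if_pos (by omega), if_neg h4]; ring

theorem jac3 {n : ℕ} (h : n % 3 ≠ 0) : jacobiSym (n : ℤ) 3 = x3 n := by
  rw [jacobiSym.mod_left]
  unfold x3
  have h1 : n % 3 = 1 ∨ n % 3 = 2 := by omega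
  rcases h1 with h1 | h1
  · have : ((n : ℤ) % ((3 : ℕ) : ℤ)) = 1 := by push_cast; omega
    rw [this, if_pos h1]
    norm_num
  · have : ((n : ℤ) % ((3 : ℕ) : ℤ)) = 2 := by push_cast; omega
    rw [this, if_neg (by omega)]
    norm_num

/-- the value at `3` for the norm `3 pr S` -/
theorem fac33 {P S : Finset ℕ} (hP : PP P) (hS : S ⊆ P) {D : ℕ} (hD : 0 < D) :
    fac (3 * pr S) (9 * D) 3 = 1 + jacobiSym (-((D / 3 ^ D.factorization 3 : ℕ) : ℤ)) 3 *
      (if Even (D.factorization 3) then 1 else ∏ p ∈ S, x3 p) := by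
  have hf := pr_facts (hP.sub hS)
  unfold fac hh
  rw [if_pos (dvd_mul_right _ _), N973.P15.fact9_3 D hD]
  have h1 : 9 * D / 3 ^ (2 + D.factorization 3) = D / 3 ^ D.factorization 3 := by
    rw [pow_add, show (3 : ℕ) ^ 2 = 9 by norm_num]
    exact Nat.mul_div_mul_left _ _ (by norm_num)
  rw [h1]
  have h2 : Even (2 + D.factorization 3) ↔ Even (D.factorization 3) := by
    rw [Nat.even_add]
    simp
  simp only [h2]
  congr 1
  split_ifs with h
  · rw [mul_one]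
  · rw [Nat.mul_div_cancel_left _ (by norm_num : 0 < 3), hf.2.2.2.1, ← jac3 hf.2.1,
      ← jacobiSym.mul_left]
    congr 1
    push_cast
    ring

/-- the signs occurring in the second sum -/
theorem gs_split {P L : Finset ℕ} {V : ℕ → ℕ} {s : ℕ → ℤ} {e : ℕ → ℕ → ℤ} (a b c d : ℤ) :
    ∑ S ∈ P.powerset, (a + b * ∏ p ∈ S, x4 p + c * ∏ p ∈ S, x3 p +
      d * ((∏ p ∈ S, x4 p) * ∏ p ∈ S, x3 p)) * FF L V s e S =
    a * GS P L V s e (fun _ => 1) + b * GS P L V s e x4 + c * GS P L V s e x3 +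
      d * GS P L V s e (fun p => x4 p * x3 p) := by
  unfold GS
  simp only [Finset.mul_sum, ← Finset.sum_add_distrib]
  refine Finset.sum_congr rfl fun S _ => ?_
  rw [Finset.prod_const_one, Finset.prod_mul_distrib]
  ring

/-- the key comparison for a fixed inner product -/
theorem key33 {P : Finset ℕ} (hP : PP P) {D : ℕ} (hD : 0 < D)
    (hv : ∀ l ∈ P, l ∣ D → D.factorization l = 1) :
    (2 : ℤ) ^ (P.card + 1) ∣ 2 * ∑ S ∈ P.powerset.filter (fun S => pr S % 4 = 1), loc (3 * pr S) (9 * D) -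
      4 * ∑ S ∈ P.powerset.filter (fun S => pr S % 4 = 3 ∧ pr S % 3 = 2), loc3 (pr S) D ∧
    (2 : ℤ) ^ P.card ∣
      4 * ∑ S ∈ P.powerset.filter (fun S => pr S % 4 = 3 ∧ pr S % 3 = 2), loc3 (pr S) D := by
  have h95 : (9 * D).factorization 5 = D.factorization 5 :=
    N973.P15.fact9 D 5 hD (by norm_num) (by norm_num)
  have hloc : ∀ n1, loc n1 (9 * D) = if Odd (D.factorization 5) then
      fac n1 (9 * D) 3 * lA n1 D else 0 := by
    intro n1
    unfold loc lA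
    rw [h95]
    split_ifs with h5
    · have hm : 3 ∈ ((9 * D).primeFactors.erase 2).erase 5 := by
        simp only [Finset.mem_erase, Nat.mem_primeFactors]
        exact ⟨by norm_num, by norm_num, by norm_num, Dvd.dvd.mul_right (by norm_num) _, by omega⟩
      rw [← Finset.mul_prod_erase _ _ hm]
      have h1 : (((9 * D).primeFactors.erase 2).erase 5).erase 3 = L0 D := by
        rw [Finset.erase_right_comm, N973.P15.pf9 D hD]
        rfl
      have h2 : tw n1 (9 * D) = tw n1 D := by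
        unfold tw
        rw [N973.P15.fact9 D 2 hD (by norm_num) (by norm_num)]
      rw [h1, h2]
      have h3 : ∏ l ∈ L0 D, fac n1 (9 * D) l = ∏ l ∈ L0 D, fac n1 D l := by
        refine Finset.prod_congr rfl fun l hl => ?_
        exact N973.P15.fac9 n1 D l hD (mem_L0 hl).1 (mem_L0 hl).2.2.2.1
      rw [h3]
      ring
    · rfl
  have hloc3 : ∀ n1, loc3 n1 D = if Odd (D.factorization 5) then
      (D.factorization 3 : ℤ) * lA n1 D else 0 := by
    intro n1
    unfold loc3 lrest lA L0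
    split_ifs
    · rfl
    · rw [mul_zero]
  simp only [hloc, hloc3]
  by_cases h5 : Odd (D.factorization 5)
  swap
  · simp only [if_neg h5]
    simp
  simp only [if_pos h5]
  by_cases h2 : 2 ≤ D.factorization 2
  swap
  · have h0 : ∀ n1, lA n1 D = 0 := fun n1 => lA_small n1 (by omega)
    simp [h0]
  set w := D.factorization 3 with hw
  set c3 : ℤ := jacobiSym (-((D / 3 ^ w : ℕ) : ℤ)) 3 with hc3
  have hc3s : Sgn c3 := by
    rw [hc3]
    apply jac_sgn Nat.prime_three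
    rw [dvd_neg]
    intro h
    have h' : 3 ∣ D / 3 ^ w := by exact_mod_cast h
    exact Nat.not_dvd_ordCompl Nat.prime_three hD.ne' h'
  set L := insert 2 (L0 D) with hL
  have hLL : ∀ l ∈ L, l ∈ insert 2 (insert 3 (L0 D)) := by
    intro l hl
    rw [hL] at hl
    simp only [Finset.mem_insert] at hl ⊢
    tauto
  have he : ∀ l ∈ L, ∀ p ∈ P, Sgn (e2 D l p) := fun l hl p hp => e2_sgn hP hD.ne' hv (hLL l hl) hp
  have hs3 : ∀ l ∈ L, Sgn (st 3 c3 l) := fun l hl => st_sgn (Or.inr rfl) hc3s (hLL l hl)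
  have hs1 : ∀ l ∈ L, Sgn (st 1 c3 l) := fun l hl => st_sgn (Or.inl rfl) hc3s (hLL l hl)
  have key := abs1 P (VV D) (st 3 c3) (st 1 c3) (e2 D) L hs3 hs1 he
  have A1 := key (fun _ => 1) (fun _ _ => Or.inl rfl)
  have A2 := key x4 (fun p _ => x4_sgn p)
  have A3 := key x3 (fun p _ => x3_sgn p)
  have A4 := key (fun p => x4 p * x3 p) (fun p _ => (x4_sgn p).mul (x3_sgn p))
  set X1 := GS P L (VV D) (st 3 c3) (e2 D) (fun _ => 1)
  set X2 := GS P L (VV D) (st 3 c3) (e2 D) x4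
  set X3 := GS P L (VV D) (st 3 c3) (e2 D) x3
  set X4 := GS P L (VV D) (st 3 c3) (e2 D) (fun p => x4 p * x3 p)
  set Y1 := GS P L (VV D) (st 1 c3) (e2 D) (fun _ => 1)
  set Y2 := GS P L (VV D) (st 1 c3) (e2 D) x4
  set Y3 := GS P L (VV D) (st 1 c3) (e2 D) x3
  set Y4 := GS P L (VV D) (st 1 c3) (e2 D) (fun p => x4 p * x3 p)
  -- the second sum
  have hR : 4 * ∑ S ∈ P.powerset.filter (fun S => pr S % 4 = 3 ∧ pr S % 3 = 2),
      (w : ℤ) * lA (pr S) D = w * (Y1 - Y2 - Y3 + Y4) := by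
    have h1 : ∑ S ∈ P.powerset.filter (fun S => pr S % 4 = 3 ∧ pr S % 3 = 2), (w : ℤ) * lA (pr S) D =
        ∑ S ∈ P.powerset.filter (fun S => pr S % 4 = 3 ∧ pr S % 3 = 2),
          (w : ℤ) * FF L (VV D) (st 1 c3) (e2 D) S := by
      refine Finset.sum_congr rfl fun S hS => ?_
      obtain ⟨a1, a2, a3⟩ := Finset.mem_filter.1 hS
      rw [← lA_eq hP (Finset.mem_powerset.1 a1) (t := 1) (Or.inr ⟨rfl, a2⟩) c3 hv h2, one_mul]
    rw [h1, sumK hP]
    have h3 := gs_split (P := P) (L := L) (V := VV D) (s := st 1 c3) (e := e2 D) 1 (-1) (-1) 1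
    have h4 : ∑ S ∈ P.powerset, (1 - ∏ p ∈ S, x4 p) * (1 - ∏ p ∈ S, x3 p) *
        ((w : ℤ) * FF L (VV D) (st 1 c3) (e2 D) S) =
        w * ∑ S ∈ P.powerset, (1 + (-1) * ∏ p ∈ S, x4 p + (-1) * ∏ p ∈ S, x3 p +
          1 * ((∏ p ∈ S, x4 p) * ∏ p ∈ S, x3 p)) * FF L (VV D) (st 1 c3) (e2 D) S := by
      rw [Finset.mul_sum]
      refine Finset.sum_congr rfl fun S _ => ?_
      ring
    rw [h4, h3]
    ring
  have hRd : (2 : ℤ) ^ P.card ∣ Y1 - Y2 - Y3 + Y4 := by
    have key' := abs1 P (VV D) (st 1 c3) (st 1 c3) (e2 D) L hs1 hs1 he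
    have B1 := (key' (fun _ => 1) (fun _ _ => Or.inl rfl)).1
    have B2 := (key' x4 (fun p _ => x4_sgn p)).1
    have B3 := (key' x3 (fun p _ => x3_sgn p)).1
    have B4 := (key' (fun p => x4 p * x3 p) (fun p _ => (x4_sgn p).mul (x3_sgn p))).1
    exact dvd_add (dvd_sub (dvd_sub B1 B2) B3) B4
  refine ⟨?_, by rw [hR]; exact Dvd.dvd.mul_left hRd _⟩
  rw [hR]
  -- the first sum
  have hLs : 2 * ∑ S ∈ P.powerset.filter (fun S => pr S % 4 = 1),
      fac (3 * pr S) (9 * D) 3 * lA (3 * pr S) D =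
      if Even w then (1 + c3) * (X1 + X2) else X1 + X2 + c3 * X3 + c3 * X4 := by
    have h1 : ∑ S ∈ P.powerset.filter (fun S => pr S % 4 = 1),
        fac (3 * pr S) (9 * D) 3 * lA (3 * pr S) D =
        ∑ S ∈ P.powerset.filter (fun S => pr S % 4 = 1),
          (1 + c3 * (if Even w then 1 else ∏ p ∈ S, x3 p)) * FF L (VV D) (st 3 c3) (e2 D) S := by
      refine Finset.sum_congr rfl fun S hS => ?_
      obtain ⟨a1, a2⟩ := Finset.mem_filter.1 hS
      rw [← lA_eq hP (Finset.mem_powerset.1 a1) (t := 3) (Or.inl ⟨rfl, a2⟩) c3 hv h2,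
        fac33 hP (Finset.mem_powerset.1 a1) hD]
    rw [h1, sumH hP]
    split_ifs with h
    · have h3 := gs_split (P := P) (L := L) (V := VV D) (s := st 3 c3) (e := e2 D) (1 + c3) (1 + c3) 0 0
      rw [show (1 + c3) * (X1 + X2) = (1 + c3) * X1 + (1 + c3) * X2 + 0 * X3 + 0 * X4 by ring, ← h3]
      refine Finset.sum_congr rfl fun S _ => ?_
      ring
    · have h3 := gs_split (P := P) (L := L) (V := VV D) (s := st 3 c3) (e := e2 D) 1 1 c3 c3
      rw [show X1 + X2 + c3 * X3 + c3 * X4 = 1 * X1 + 1 * X2 + c3 * X3 + c3 * X4 by ring, ← h3]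
      refine Finset.sum_congr rfl fun S _ => ?_
      ring
  rw [hLs]
  have hp2 : (2 : ℤ) ^ (P.card + 1) = 2 * 2 ^ P.card := by rw [pow_succ, mul_comm]
  split_ifs with h
  · obtain ⟨v, hv'⟩ := h
    have hw2 : (w : ℤ) = 2 * v := by rw [hv']; push_cast; ring
    rw [hw2, hp2]
    refine dvd_sub ?_ ?_
    · refine mul_dvd_mul ?_ (dvd_add A1.1 A2.1)
      have := hc3s.odd
      omega
    · rw [mul_assoc]
      exact mul_dvd_mul_left 2 (Dvd.dvd.mul_left hRd _)
  · have hw1 : ∃ v : ℤ, (w : ℤ) = 2 * v + 1 := by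
      rw [Nat.not_even_iff_odd] at h
      obtain ⟨v, hv'⟩ := h
      exact ⟨v, by rw [hv']; push_cast; ring⟩
    obtain ⟨v, hv'⟩ := hw1
    have e : X1 + X2 + c3 * X3 + c3 * X4 - w * (Y1 - Y2 - Y3 + Y4) =
        (X1 - Y1) + (X2 - Y2) + (X3 - Y3) + (X4 - Y4) + (c3 - 1) * X3 + (c3 - 1) * X4 +
          2 * (Y2 + Y3) - 2 * v * (Y1 - Y2 - Y3 + Y4) := by
      rw [hv']; ring
    have key' := abs1 P (VV D) (st 1 c3) (st 1 c3) (e2 D) L hs1 hs1 he
    have B2 := (key' x4 (fun p _ => x4_sgn p)).1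
    have B3 := (key' x3 (fun p _ => x3_sgn p)).1
    have hc2 : (2 : ℤ) ∣ c3 - 1 := by
      have := hc3s.odd
      omega
    rw [e]
    refine dvd_sub (dvd_add (dvd_add (dvd_add (dvd_add (dvd_add (dvd_add A1.2 A2.2) A3.2) A4.2) ?_) ?_)
      ?_) ?_
    · rw [hp2]; exact mul_dvd_mul hc2 A3.1
    · rw [hp2]; exact mul_dvd_mul hc2 A4.1
    · rw [hp2]; exact mul_dvd_mul_left 2 (dvd_add B2 B3)
    · rw [hp2, mul_assoc]; exact mul_dvd_mul_left 2 (Dvd.dvd.mul_left hRd _)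

/-- the mixed relation for a fixed inner product -/
theorem key32 {P : Finset ℕ} (hP : PP P) {D : ℕ} (hD : 0 < D)
    (hv : ∀ l ∈ P, l ∣ D → D.factorization l = 1) (h31 : D.factorization 3 = 1)
    (h32 : D / 3 % 3 = 2) :
    (2 : ℤ) ^ P.card ∣ ∑ S ∈ P.powerset.filter (fun S => pr S % 4 = 1), loc (3 * pr S) D +
      ∑ S ∈ P.powerset.filter (fun S => pr S % 4 = 3), loc (pr S) D := by
  have h3D : 3 ∣ D := by
    by_contra h
    rw [Nat.factorization_eq_zero_of_not_dvd h] at h31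
    omega
  have hloc : ∀ n1, loc n1 D = if Odd (D.factorization 5) then fac n1 D 3 * lA n1 D else 0 := by
    intro n1
    unfold loc lA
    split_ifs with h5
    · have hm : 3 ∈ (D.primeFactors.erase 2).erase 5 := by
        simp only [Finset.mem_erase, Nat.mem_primeFactors]
        exact ⟨by norm_num, by norm_num, by norm_num, h3D, by omega⟩
      rw [← Finset.mul_prod_erase _ _ hm, Finset.erase_right_comm]
      unfold L0
      ring
    · rfl
  simp only [hloc]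
  by_cases h5 : Odd (D.factorization 5)
  swap
  · simp only [if_neg h5]
    simp
  simp only [if_pos h5]
  by_cases h2 : 2 ≤ D.factorization 2
  swap
  · have h0 : ∀ n1, lA n1 D = 0 := fun n1 => lA_small n1 (by omega)
    simp [h0]
  set L := insert 2 (L0 D) with hL
  have hLL : ∀ l ∈ L, l ∈ insert 2 (insert 3 (L0 D)) := by
    intro l hl
    rw [hL] at hl
    simp only [Finset.mem_insert] at hl ⊢
    tauto
  have he : ∀ l ∈ L, ∀ p ∈ P, Sgn (e2 D l p) := fun l hl p hp => e2_sgn hP hD.ne' hv (hLL l hl) hp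
  have hs3 : ∀ l ∈ L, Sgn (st 3 1 l) := fun l hl => st_sgn (Or.inr rfl) (Or.inl rfl) (hLL l hl)
  have hs1 : ∀ l ∈ L, Sgn (st 1 1 l) := fun l hl => st_sgn (Or.inl rfl) (Or.inl rfl) (hLL l hl)
  have key := abs1 P (VV D) (st 3 1) (st 1 1) (e2 D) L hs3 hs1 he
  have A1 := key (fun _ => 1) (fun _ _ => Or.inl rfl)
  have A2 := key x4 (fun p _ => x4_sgn p)
  have A3 := key x3 (fun p _ => x3_sgn p)
  have A4 := key (fun p => x4 p * x3 p) (fun p _ => (x4_sgn p).mul (x3_sgn p))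
  set X1 := GS P L (VV D) (st 3 1) (e2 D) (fun _ => 1) with hX1
  set X2 := GS P L (VV D) (st 3 1) (e2 D) x4 with hX2
  set X3 := GS P L (VV D) (st 3 1) (e2 D) x3 with hX3
  set X4 := GS P L (VV D) (st 3 1) (e2 D) (fun p => x4 p * x3 p) with hX4
  set Y1 := GS P L (VV D) (st 1 1) (e2 D) (fun _ => 1) with hY1
  set Y2 := GS P L (VV D) (st 1 1) (e2 D) x4 with hY2
  set Y3 := GS P L (VV D) (st 1 1) (e2 D) x3 with hY3
  set Y4 := GS P L (VV D) (st 1 1) (e2 D) (fun p => x4 p * x3 p) with hY4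
  have hf3 : ∀ S ⊆ P, fac (3 * pr S) D 3 = 1 + ∏ p ∈ S, x3 p := by
    intro S hS
    have hf := pr_facts (hP.sub hS)
    unfold fac hh
    rw [if_pos (dvd_mul_right _ _), h31, if_neg (by decide), pow_one]
    congr 1
    rw [Nat.mul_div_cancel_left _ (by norm_num : 0 < 3), hf.2.2.2.1, ← jac3 hf.2.1,
      show (-((pr S * (D / 3) : ℕ) : ℤ)) = (-((D / 3 : ℕ) : ℤ)) * ((pr S : ℕ) : ℤ) by push_cast; ring,
      jacobiSym.mul_left]
    have : jacobiSym (-((D / 3 : ℕ) : ℤ)) 3 = 1 := by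
      generalize D / 3 = E at h32 ⊢
      rw [jacobiSym.mod_left]
      have : (-(E : ℤ)) % ((3 : ℕ) : ℤ) = 1 := by push_cast; omega
      rw [this, jacobiSym.one_left]
    rw [this, one_mul]
  have hf1 : ∀ S ⊆ P, fac (pr S) D 3 = 1 - ∏ p ∈ S, x3 p := by
    intro S hS
    have hf := pr_facts (hP.sub hS)
    unfold fac
    rw [if_neg (fun h => hf.2.1 (Nat.mod_eq_zero_of_dvd h)), h31, Finset.sum_range_succ,
      Finset.sum_range_one, pow_zero, pow_one, hf.2.2.2.1, sub_eq_add_neg]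
    congr 1
    have h1 := hf.2.1
    rw [jacobiSym.mod_left]
    unfold x3
    have h2 : pr S % 3 = 1 ∨ pr S % 3 = 2 := by omega
    rcases h2 with h2 | h2
    · have : (-(pr S : ℤ)) % ((3 : ℕ) : ℤ) = 2 := by push_cast; omega
      rw [this, if_pos h2]
      norm_num
    · have : (-(pr S : ℤ)) % ((3 : ℕ) : ℤ) = 1 := by push_cast; omega
      rw [this, if_neg (by omega)]
      norm_num
  have e1 : 2 * ∑ S ∈ P.powerset.filter (fun S => pr S % 4 = 1),
      fac (3 * pr S) D 3 * lA (3 * pr S) D = X1 + X2 + X3 + X4 := by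
    have h1 : ∑ S ∈ P.powerset.filter (fun S => pr S % 4 = 1), fac (3 * pr S) D 3 * lA (3 * pr S) D =
        ∑ S ∈ P.powerset.filter (fun S => pr S % 4 = 1),
          (1 + ∏ p ∈ S, x3 p) * FF L (VV D) (st 3 1) (e2 D) S := by
      refine Finset.sum_congr rfl fun S hS => ?_
      obtain ⟨a1, a2⟩ := Finset.mem_filter.1 hS
      rw [← lA_eq hP (Finset.mem_powerset.1 a1) (t := 3) (Or.inl ⟨rfl, a2⟩) 1 hv h2,
        hf3 S (Finset.mem_powerset.1 a1)]
    rw [h1, sumH hP]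
    have h3 := gs_split (P := P) (L := L) (V := VV D) (s := st 3 1) (e := e2 D) 1 1 1 1
    rw [show X1 + X2 + X3 + X4 = 1 * X1 + 1 * X2 + 1 * X3 + 1 * X4 by ring, ← h3]
    refine Finset.sum_congr rfl fun S _ => ?_
    ring
  have e3 : 2 * ∑ S ∈ P.powerset.filter (fun S => pr S % 4 = 3), fac (pr S) D 3 * lA (pr S) D =
      Y1 - Y2 - Y3 + Y4 := by
    have h1 : ∑ S ∈ P.powerset.filter (fun S => pr S % 4 = 3), fac (pr S) D 3 * lA (pr S) D =
        ∑ S ∈ P.powerset.filter (fun S => pr S % 4 = 3),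
          (1 - ∏ p ∈ S, x3 p) * FF L (VV D) (st 1 1) (e2 D) S := by
      refine Finset.sum_congr rfl fun S hS => ?_
      obtain ⟨a1, a2⟩ := Finset.mem_filter.1 hS
      rw [← lA_eq hP (Finset.mem_powerset.1 a1) (t := 1) (Or.inr ⟨rfl, a2⟩) 1 hv h2,
        hf1 S (Finset.mem_powerset.1 a1), one_mul]
    rw [h1, sumHc hP]
    have h3 := gs_split (P := P) (L := L) (V := VV D) (s := st 1 1) (e := e2 D) 1 (-1) (-1) 1
    rw [show Y1 - Y2 - Y3 + Y4 = 1 * Y1 + (-1) * Y2 + (-1) * Y3 + 1 * Y4 by ring, ← h3]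
    refine Finset.sum_congr rfl fun S _ => ?_
    ring
  have hp2 : (2 : ℤ) ^ (P.card + 1) = 2 * 2 ^ P.card := by rw [pow_succ, mul_comm]
  have h6 : (2 : ℤ) * 2 ^ P.card ∣ 2 * (∑ S ∈ P.powerset.filter (fun S => pr S % 4 = 1),
      fac (3 * pr S) D 3 * lA (3 * pr S) D +
      ∑ S ∈ P.powerset.filter (fun S => pr S % 4 = 3), fac (pr S) D 3 * lA (pr S) D) := by
    rw [mul_add, e1, e3]
    have e : X1 + X2 + X3 + X4 + (Y1 - Y2 - Y3 + Y4) = 2 * (X1 + X4) - (X1 - Y1) + (X2 - Y2) +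
        (X3 - Y3) - (X4 - Y4) := by ring
    rw [e]
    rw [hp2] at A1 A2 A3 A4
    exact dvd_sub (dvd_add (dvd_add (dvd_sub (mul_dvd_mul_left 2 (dvd_add A1.1 A4.1)) A1.2) A2.2) A3.2) A4.2
  exact (mul_dvd_mul_iff_left (by norm_num : (2 : ℤ) ≠ 0)).1 h6

end Pool.Agent.N218.P15
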