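import Pool.Agent.N218.P15.Loc
import Pool.Agent.N969.P15.Defs2
import Pool.Agent.N871.P15.Par

/-!
# P15: the divisibilities `S_U33E`, `S_U32E`
-/

set_option autoImplicit false

namespace Pool.Agent.N218.P15

open Finset
open Pool.Agent.N969.P15
open Pool.Agent.N871.P15 (sum_div cp0_sum sum_symm sum_four)
open Pool.Agent.Z700 (hh fac)

/-- an even number with squarefree odd part -/
structure Dat (c A m : ℕ) : Prop where
  hm : m = c * A
  hc : c = 4 ∨ c = 8
  hs : Squarefree A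
  h2 : ¬ 2 ∣ A

theorem dat_of {a : ℕ} (ha : Squarefree a) : ∃ c A, Dat c A (4 * a) := by
  by_cases h : 2 ∣ a
  · obtain ⟨A, rfl⟩ := h
    refine ⟨8, A, by ring, Or.inr rfl, ha.squarefree_of_dvd (dvd_mul_left A 2), ?_⟩
    intro h2
    obtain ⟨B, rfl⟩ := h2
    have := Nat.isUnit_iff.1 (ha 2 ⟨B, by ring⟩)
    omega
  · exact ⟨4, a, rfl, Or.inl rfl, ha, h⟩

theorem Dat.pos {c A m : ℕ} (h : Dat c A m) : 0 < m := by
  have := h.hs.ne_zero
  rw [h.hm]
  rcases h.hc with rfl | rfl <;> omega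

theorem Dat.card {c A m : ℕ} (h : Dat c A m) : m.primeFactors.card = A.primeFactors.card + 1 := by
  rw [h.hm]
  have hc : c.primeFactors = {2} := by
    rcases h.hc with rfl | rfl
    · rw [show (4 : ℕ) = 2 ^ 2 by norm_num, Nat.primeFactors_prime_pow (by norm_num) Nat.prime_two]
    · rw [show (8 : ℕ) = 2 ^ 3 by norm_num, Nat.primeFactors_prime_pow (by norm_num) Nat.prime_two]
  have hc0 : c ≠ 0 := by rcases h.hc with rfl | rfl <;> norm_num
  rw [Nat.primeFactors_mul hc0 h.hs.ne_zero, hc, Finset.card_union_of_disjoint, card_singleton]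
  · omega
  · rw [Finset.disjoint_singleton_left]
    intro h2
    exact h.h2 (Nat.dvd_of_mem_primeFactors h2)

theorem Dat.odd_dvd {c A m d : ℕ} (h : Dat c A m) (hd : d ∣ m) (h2 : d % 2 = 1) : d ∣ A := by
  rw [h.hm] at hd
  have hcop : Nat.Coprime d c := by
    have h3 : Nat.Coprime d 2 := (Nat.coprime_two_right).2 (Nat.odd_iff.2 h2)
    rcases h.hc with rfl | rfl
    · exact (show (4 : ℕ) = 2 ^ 2 by norm_num) ▸ h3.pow_right 2
    · exact (show (8 : ℕ) = 2 ^ 3 by norm_num) ▸ h3.pow_right 3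
  exact hcop.dvd_of_dvd_mul_left hd

theorem Dat.dvd {c A m d : ℕ} (h : Dat c A m) (hd : d ∣ A) : d ∣ m ∧ d % 2 = 1 ∧
    m / d = c * (A / d) ∧ Nat.Coprime d (m / d) ∧ m / d % 4 = 0 := by
  obtain ⟨B, hB⟩ := hd
  have hd0 : 0 < d := Nat.pos_of_ne_zero (by rintro rfl; exact h.hs.ne_zero (by rw [hB, zero_mul]))
  have h1 : d % 2 = 1 := by
    have : ¬ 2 ∣ d := fun h3 => h.h2 (h3.trans ⟨B, hB⟩)
    omega
  have e1 : A / d = B := by rw [hB]; exact Nat.mul_div_cancel_left _ hd0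
  have e2 : m / d = c * B := by
    rw [h.hm, hB, show c * (d * B) = d * (c * B) by ring]
    exact Nat.mul_div_cancel_left _ hd0
  refine ⟨?_, h1, by rw [e2, e1], ?_, ?_⟩
  · rw [h.hm, hB]; exact ⟨c * B, by ring⟩
  · rw [e2]
    apply Nat.Coprime.mul_right
    · have h3 : Nat.Coprime d 2 := (Nat.coprime_two_right).2 (Nat.odd_iff.2 h1)
      rcases h.hc with rfl | rfl
      · exact (show (4 : ℕ) = 2 ^ 2 by norm_num) ▸ h3.pow_right 2
      · exact (show (8 : ℕ) = 2 ^ 3 by norm_num) ▸ h3.pow_right 3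
    · have := h.hs
      rw [hB] at this
      exact (Nat.squarefree_mul_iff.1 this).1
  · rw [e2]
    rcases h.hc with rfl | rfl <;> omega

/-- the primes of the odd part -/
theorem Dat.PP {c A m : ℕ} (h : Dat c A m) (h3 : ¬ 3 ∣ m) (h5 : ¬ 5 ∣ m) : PP A.primeFactors := by
  intro p hp
  have h1 := Nat.prime_of_mem_primeFactors hp
  have h4 := Nat.dvd_of_mem_primeFactors hp
  have h6 := (h.dvd h4).1
  refine ⟨h1, ?_, ?_, ?_⟩
  · rintro rfl; exact h.h2 h4
  · rintro rfl; exact h3 h6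
  · rintro rfl; exact h5 h6

/-- `l² ∤ m` -/
theorem Dat.nsq {c A m : ℕ} (h : Dat c A m) {l : ℕ} (hl : l.Prime) (h2 : l ≠ 2) : ¬ l ^ 2 ∣ m := by
  intro h1
  have h3 : (l ^ 2) % 2 = 1 := by
    rw [Nat.pow_mod, (hl.eq_two_or_odd).resolve_left h2]
  have h4 := h.odd_dvd h1 h3
  rw [pow_two] at h4
  have := Nat.isUnit_iff.1 (h.hs l h4)
  exact hl.one_lt.ne' this

/-- splitting of the sum over the unitary divisors -/
theorem split_div {c A m : ℕ} (h : Dat c A m) (F : ℕ → ℤ) (r : ℕ) (hr : r = 1 ∨ r = 3) :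
    ∑ d ∈ m.divisors.filter (fun d => Nat.Coprime d (m / d) ∧ (d % 4 = 1 ∨ (m / d) % 4 = r)), F d =
      ∑ d ∈ A.divisors.filter (fun d => d % 4 = 1), F d +
        ∑ d ∈ A.divisors.filter (fun d => d % 4 = r), F (m / d) := by
  have hA0 := h.hs.ne_zero
  have hm0 := h.pos.ne'
  rw [← Finset.sum_filter_add_sum_filter_not _ (fun d => d % 4 = 1)]
  congr 1
  · refine Finset.sum_congr ?_ fun _ _ => rfl
    ext d
    simp only [Finset.mem_filter, Nat.mem_divisors]
    constructor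
    · rintro ⟨⟨⟨h1, h2⟩, h3, h4⟩, h5⟩
      exact ⟨⟨h.odd_dvd h1 (by omega), hA0⟩, h5⟩
    · rintro ⟨⟨h1, h2⟩, h3⟩
      have h4 := h.dvd h1
      exact ⟨⟨⟨h4.1, hm0⟩, h4.2.2.2.1, Or.inl h3⟩, h3⟩
  · refine Finset.sum_nbij' (fun d => m / d) (fun d => m / d) ?_ ?_ ?_ ?_ ?_
    · intro d hd
      simp only [Finset.mem_filter, Nat.mem_divisors] at hd ⊢
      obtain ⟨⟨⟨h1, h2⟩, h3, h4⟩, h5⟩ := hd
      have h6 := h4.resolve_left h5
      exact ⟨⟨h.odd_dvd (Nat.div_dvd_of_dvd h1) (by omega), hA0⟩, h6⟩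
    · intro d hd
      simp only [Finset.mem_filter, Nat.mem_divisors] at hd ⊢
      obtain ⟨⟨h1, h2⟩, h3⟩ := hd
      have h4 := h.dvd h1
      have h6 : m / (m / d) = d := Nat.div_div_self h4.1 hm0
      refine ⟨⟨⟨Nat.div_dvd_of_dvd h4.1, hm0⟩, ?_, ?_⟩, ?_⟩
      · rw [h6]; exact h4.2.2.2.1.symm
      · rw [h6]; exact Or.inr h3
      · omega
    · intro d hd
      simp only [Finset.mem_filter, Nat.mem_divisors] at hd
      exact Nat.div_div_self hd.1.1.1 hm0
    · intro d hd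
      simp only [Finset.mem_filter, Nat.mem_divisors] at hd
      exact Nat.div_div_self (h.dvd hd.1.1).1 hm0
    · intro d hd
      simp only [Finset.mem_filter, Nat.mem_divisors] at hd
      rw [Nat.div_div_self hd.1.1.1 hm0]

theorem ip_comm (v w : V3) : ip v w = ip w v := by
  unfold ip; ring

theorem cp0_comm (n1 n2 : ℤ) : cp0 n1 n2 = cp0 n2 n1 := by
  unfold cp0
  refine Finset.card_nbij' (fun q => (q.2, q.1)) (fun q => (q.2, q.1)) ?_ ?_ ?_ ?_
  · rintro ⟨v, w⟩ hq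
    simp only [Finset.coe_filter, Set.mem_ofPred_eq, Finset.mem_product] at hq ⊢
    exact ⟨⟨hq.1.2, hq.1.1⟩, by rw [ip_comm]; exact hq.2⟩
  · rintro ⟨v, w⟩ hq
    simp only [Finset.coe_filter, Set.mem_ofPred_eq, Finset.mem_product] at hq ⊢
    exact ⟨⟨hq.1.2, hq.1.1⟩, by rw [ip_comm]; exact hq.2⟩
  · intro q _; rfl
  · intro q _; rfl

theorem loc_zero_5 {n1 D : ℕ} (h : ¬ 5 ∣ D) : loc n1 D = 0 := by
  unfold loc
  rw [Nat.factorization_eq_zero_of_not_dvd h]
  simp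

theorem loc3_zero_5 {n1 D : ℕ} (h : ¬ 5 ∣ D) : loc3 n1 D = 0 := by
  unfold loc3 lrest
  rw [Nat.factorization_eq_zero_of_not_dvd h]
  simp

/-- sums over divisors with a condition as sums over sets of primes -/
theorem sum_div_filter {A : ℕ} (hA : Squarefree A) (q : ℕ → Prop) [DecidablePred q] (f : ℕ → ℤ) :
    ∑ d ∈ A.divisors.filter q, f d =
      ∑ S ∈ A.primeFactors.powerset.filter (fun S => q (pr S)), f (pr S) := by
  rw [Finset.sum_filter, Finset.sum_filter, sum_div hA (fun d => if q d then f d else 0)]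
  rfl

/-- valuations at the common primes -/
theorem val_one {c A m : ℕ} (h : Dat c A m) (h3 : ¬ 3 ∣ m) (h5 : ¬ 5 ∣ m) {q D : ℕ} {b : ℤ}
    (hq : q = 1 ∨ q = 3 ∨ q = 9) (hD : D ≠ 0) (hDD : (D : ℤ) = q * m - b ^ 2) :
    ∀ l ∈ A.primeFactors, l ∣ D → D.factorization l = 1 := by
  intro l hl hlD
  obtain ⟨hlp, l2, l3, l5⟩ := (h.PP h3 h5) l hl
  have hlA := Nat.dvd_of_mem_primeFactors hl
  have hlm := (h.dvd hlA).1
  have h1 : 1 ≤ D.factorization l := (hlp.dvd_iff_one_le_factorization hD).1 hlD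
  have hb : (l : ℤ) ∣ b := by
    have h6 : (l : ℤ) ∣ b ^ 2 := by
      have e : b ^ 2 = q * m - D := by rw [hDD]; ring
      rw [e]
      exact dvd_sub (Dvd.dvd.mul_left (by exact_mod_cast hlm) _) (by exact_mod_cast hlD)
    exact (Nat.prime_iff_prime_int.1 hlp).dvd_of_dvd_pow h6
  have h2 : ¬ 2 ≤ D.factorization l := by
    intro h7
    have h8 : l ^ 2 ∣ D := (Nat.Prime.pow_dvd_iff_le_factorization hlp hD).2 h7
    have h9 : ((l ^ 2 : ℕ) : ℤ) ∣ q * m := by
      have e : (q : ℤ) * m = D + b ^ 2 := by rw [hDD]; ring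
      rw [e]
      refine dvd_add (by exact_mod_cast h8) ?_
      push_cast
      exact pow_dvd_pow_of_dvd hb 2
    have h10 : l ^ 2 ∣ q * m := by exact_mod_cast h9
    have hcop : Nat.Coprime (l ^ 2) q := by
      apply Nat.Coprime.pow_left
      have hl3 : Nat.Coprime l 3 := (Nat.coprime_primes hlp Nat.prime_three).2 l3
      rcases hq with rfl | rfl | rfl
      · exact Nat.coprime_one_right l
      · exact hl3
      · exact (show (9 : ℕ) = 3 ^ 2 by norm_num) ▸ hl3.pow_right 2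
    exact h.nsq hlp l2 (hcop.dvd_of_dvd_mul_left h10)
  omega

/-- the divisibility for `3 d`, `3 (m / d)` -/
theorem core33 (hPC : S_PC) (hR : S_REL22) (hC : S_CP3) {c A m : ℕ} (h : Dat c A m)
    (h3 : ¬ 3 ∣ m) (h5 : m % 5 = 1 ∨ m % 5 = 4) (hnsq : ∀ b : ℤ, b ^ 2 ≠ m) :
    (2 : ℤ) ^ (A.primeFactors.card + 2) ∣ ∑ d ∈ A.divisors.filter (fun d => d % 4 = 1),
      (cp0 (3 * d : ℕ) (3 * (m / d) : ℕ) : ℤ) := by
  have h5' : ¬ 5 ∣ m := by omega
  have hPP := h.PP h3 h5'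
  have hs := h.hs
  set B : ℕ := Nat.sqrt m + 1 with hB
  have hB1 : m < B ^ 2 := by
    have := Nat.lt_succ_sqrt' m
    rwa [Nat.succ_eq_add_one, ← hB] at this
  have hb : ∀ b : ℤ, b ∈ Ioo (-(B : ℤ)) B → 0 < (m : ℤ) - b ^ 2 := by
    intro b hb
    rw [Finset.mem_Ioo] at hb
    have h4 : |b| ≤ Nat.sqrt m := by
      rw [abs_le]
      constructor <;> omega
    have h5 : b ^ 2 ≤ ((Nat.sqrt m ^ 2 : ℕ) : ℤ) := by
      rw [← sq_abs]
      push_cast
      exact pow_le_pow_left₀ (abs_nonneg _) h4 2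
    have h6 : ((Nat.sqrt m ^ 2 : ℕ) : ℤ) ≤ (m : ℤ) := by
      exact_mod_cast Nat.sqrt_le' m
    have h8 := hnsq b
    have h9 : b ^ 2 < m := lt_of_le_of_ne (h5.trans h6) h8
    linarith
  have key : ∀ d ∈ A.divisors.filter (fun d => d % 4 = 1),
      (cp0 (3 * d : ℕ) (3 * (m / d) : ℕ) : ℤ) =
      ∑ b ∈ Ioo (-(B : ℤ)) B, 6 * loc (3 * d) (9 * ((m : ℤ) - b ^ 2).toNat) := by
    intro d hd
    rw [Finset.mem_filter, Nat.mem_divisors] at hd
    obtain ⟨⟨hdA, hn0⟩, hd4⟩ := hd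
    have hdn := (h.dvd hdA).1
    have e1 : d * (m / d) = m := Nat.mul_div_cancel' hdn
    have e2 : 3 * d * (3 * (m / d)) = 9 * m := by
      calc 3 * d * (3 * (m / d)) = 9 * (d * (m / d)) := by ring
        _ = 9 * m := by rw [e1]
    rw [cp0_sum (B := B) (by rw [e2]; omega)]
    refine Finset.sum_congr rfl fun b hb' => ?_
    have hpos := hb b hb'
    refine hPC (3 * d) (3 * (m / d)) (3 * b) _ ?_ (by omega) ?_ ?_ ?_
    · rw [Nat.squarefree_mul_iff]
      refine ⟨?_, Nat.prime_three.squarefree, hs.squarefree_of_dvd hdA⟩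
      exact (Nat.Prime.coprime_iff_not_dvd Nat.prime_three).2 fun h => h3 (h.trans hdn)
    · intro h
      rcases (Nat.Prime.dvd_mul Nat.prime_five).1 h with h | h
      · omega
      · have := h.trans hdn
        omega
    · omega
    · rw [Nat.cast_mul 9, Int.toNat_of_nonneg hpos.le]
      have : ((3 * d : ℕ) : ℤ) * ((3 * (m / d) : ℕ) : ℤ) = 9 * (m : ℤ) := by exact_mod_cast e2
      rw [this]
      push_cast
      ring
  rw [Finset.sum_congr rfl key, Finset.sum_comm]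
  have e3 : ∀ b ∈ Ioo (-(B : ℤ)) B, ∑ d ∈ A.divisors.filter (fun d => d % 4 = 1),
      6 * loc (3 * d) (9 * ((m : ℤ) - b ^ 2).toNat) = 6 *
      (fun b : ℤ => ∑ d ∈ A.divisors.filter (fun d => d % 4 = 1),
        loc (3 * d) (9 * ((m : ℤ) - b ^ 2).toNat)) b := by
    intro b _
    rw [Finset.mul_sum]
  rw [Finset.sum_congr rfl e3, ← Finset.mul_sum, sum_symm]
  rotate_left
  · intro b
    have : (-b) ^ 2 = b ^ 2 := by ring
    rw [this]
  · refine Finset.sum_eq_zero fun d _ => loc_zero_5 ?_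
    omega
  set P := A.divisors.filter (fun d => d % 4 = 3 ∧ d % 3 = 2) with hP
  -- the local facts
  have hloc : ∀ b ∈ Ioo (-(B : ℤ)) B,
      ((2 : ℤ) ^ A.primeFactors.card ∣
        ∑ d ∈ A.divisors.filter (fun d => d % 4 = 1), loc (3 * d) (9 * ((m : ℤ) - b ^ 2).toNat) -
        2 * ∑ d ∈ P, loc3 d ((m : ℤ) - b ^ 2).toNat) ∧
      (2 : ℤ) ^ A.primeFactors.card ∣ 4 * ∑ d ∈ P, loc3 d ((m : ℤ) - b ^ 2).toNat := by
    intro b hb'
    have hpos := hb b hb'
    set E := ((m : ℤ) - b ^ 2).toNat with hE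
    have hEE : (E : ℤ) = m - b ^ 2 := Int.toNat_of_nonneg hpos.le
    have hE0 : 0 < E := by omega
    have hk := key33 hPP hE0 (val_one h h3 h5' (q := 1) (b := b) (Or.inl rfl) hE0.ne'
      (by rw [hEE]; push_cast; ring))
    rw [hP, sum_div_filter hs (fun d => d % 4 = 1), sum_div_filter hs (fun d => d % 4 = 3 ∧ d % 3 = 2)]
    refine ⟨?_, hk.2⟩
    have h6 := hk.1
    rw [pow_succ, mul_comm ((2 : ℤ) ^ _) 2] at h6
    refine (mul_dvd_mul_iff_left (by norm_num : (2 : ℤ) ≠ 0)).1 (h6.trans (dvd_of_eq ?_))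
    ring
  -- reduction to the sum of the other local densities
  have hred : (2 : ℤ) ^ A.primeFactors.card ∣
      2 * ∑ b ∈ Ioo (0 : ℤ) B, ∑ d ∈ P, loc3 d ((m : ℤ) - b ^ 2).toNat := by
    have e0 : 2 * ∑ b ∈ Ioo (0 : ℤ) B, ∑ d ∈ P, loc3 d ((m : ℤ) - b ^ 2).toNat =
        ∑ b ∈ Ioo (-(B : ℤ)) B, ∑ d ∈ P, loc3 d ((m : ℤ) - b ^ 2).toNat := by
      rw [sum_symm B (fun b => ∑ d ∈ P, loc3 d ((m : ℤ) - b ^ 2).toNat)]
      · intro b
        have : (-b) ^ 2 = b ^ 2 := by ring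
        rw [this]
      · refine Finset.sum_eq_zero fun d _ => loc3_zero_5 ?_
        omega
    rw [e0]
    -- the residue of `m` modulo five
    obtain ⟨r, hr0, hr5, hrm⟩ : ∃ r : ℤ, 0 < r ∧ 2 * r < 5 ∧ (r * r - (m : ℤ)) % 5 = 0 := by
      rcases h5 with h5 | h5
      · exact ⟨1, by norm_num, by norm_num, by omega⟩
      · exact ⟨2, by norm_num, by norm_num, by omega⟩
    by_cases hm3 : m % 3 = 1
    swap
    · have hz : ∀ b ∈ Ioo (-(B : ℤ)) B, ∑ d ∈ P, loc3 d ((m : ℤ) - b ^ 2).toNat = 0 := by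
        intro b hb'
        have hpos := hb b hb'
        refine Finset.sum_eq_zero fun d _ => ?_
        have h6 : ¬ 3 ∣ ((m : ℤ) - b ^ 2).toNat := by
          intro h
          have h7 : (3 : ℤ) ∣ (m : ℤ) - b ^ 2 := by
            rw [← Int.toNat_of_nonneg hpos.le]
            exact_mod_cast h
          have h8 : b % 3 = 0 ∨ b % 3 = 1 ∨ b % 3 = 2 := by omega
          rcases h8 with h8 | h8 | h8
          · have : b ^ 2 % 3 = 0 := by rw [sq, Int.mul_emod, h8]; norm_num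
            omega
          · have : b ^ 2 % 3 = 1 := by rw [sq, Int.mul_emod, h8]; norm_num
            omega
          · have : b ^ 2 % 3 = 1 := by rw [sq, Int.mul_emod, h8]; norm_num
            omega
        rw [loc3, Nat.factorization_eq_zero_of_not_dvd h6]
        simp
      rw [Finset.sum_eq_zero hz]
      exact dvd_zero _
    -- the sums over the classes
    have hw : ∀ d ∈ P, ∀ r3 r5 : ℤ, (r3 = 1 ∨ r3 = 2) → (r5 = r ∨ r5 = 5 - r) →
        144 * ∑ b ∈ (Ioo (-(B : ℤ)) B).filter (fun b => b % 3 = r3 ∧ b % 5 = r5),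
          loc3 d ((m : ℤ) - b ^ 2).toNat = 3 * rr d * rr (m / d : ℕ) + cc d * cc (m / d : ℕ) := by
      intro d hd r3 r5 hr3 hr5'
      rw [hP, Finset.mem_filter, Nat.mem_divisors] at hd
      obtain ⟨⟨hdA, hn0⟩, hd4, hd3⟩ := hd
      have hdn := (h.dvd hdA).1
      have e1 : d * (m / d) = m := Nat.mul_div_cancel' hdn
      have hd3' : m / d % 3 = 2 := by
        have h6 : (d * (m / d)) % 3 = 1 := by rw [e1]; exact hm3
        rw [Nat.mul_mod, hd3] at h6
        have : m / d % 3 = 0 ∨ m / d % 3 = 1 ∨ m / d % 3 = 2 := by omega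
        rcases this with h | h | h
        · rw [h] at h6; omega
        · rw [h] at h6; omega
        · exact h
      have h5d : ¬ 5 ∣ d := fun h => by have := h.trans hdn; omega
      have h5d' : ¬ 5 ∣ m / d := fun h => by have := h.trans (Nat.div_dvd_of_dvd hdn); omega
      have e2 : (d : ℤ) * ((m / d : ℕ) : ℤ) = m := by exact_mod_cast e1
      have hr5m : (5 : ℤ) ∣ r5 ^ 2 - (d : ℤ) * ((m / d : ℕ) : ℤ) := by
        rw [e2]
        rcases hr5' with rfl | rfl
        · rw [sq]; omega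
        · have : (5 - r) ^ 2 - (m : ℤ) = (r * r - m) + 5 * (5 - 2 * r) := by ring
          rw [this]; omega
      rw [← hR d (m / d) hd3 hd3' h5d h5d' r3 r5 hr3 (by omega) (by omega) hr5m B
        (by rw [e2]; exact_mod_cast hB1) (by positivity), Finset.mul_sum, Finset.mul_sum]
      refine Finset.sum_congr rfl fun b hb' => ?_
      rw [Finset.mem_filter] at hb'
      have hpos := hb b hb'.1
      rw [hC d (m / d) b ((m : ℤ) - b ^ 2).toNat (hs.squarefree_of_dvd hdA) hd4 hd3 hd3' h5d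
        (by omega) (by omega) (by rw [e2]; exact Int.toNat_of_nonneg hpos.le)]
      ring
    have hv : ∀ d ∈ P, ∑ b ∈ Ioo (-(B : ℤ)) B, loc3 d ((m : ℤ) - b ^ 2).toNat =
        4 * ∑ b ∈ (Ioo (-(B : ℤ)) B).filter (fun b => b % 3 = 1 ∧ b % 5 = r),
          loc3 d ((m : ℤ) - b ^ 2).toNat := by
      intro d hd
      rw [sum_four _ _ r]
      · have w1 := hw d hd 1 r (Or.inl rfl) (Or.inl rfl)
        have w2 := hw d hd 1 (5 - r) (Or.inl rfl) (Or.inr rfl)
        have w3 := hw d hd 2 r (Or.inr rfl) (Or.inl rfl)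
        have w4 := hw d hd 2 (5 - r) (Or.inr rfl) (Or.inr rfl)
        linarith
      · intro b hb' hne
        have hpos := hb b hb'
        have hEE := Int.toNat_of_nonneg hpos.le
        constructor
        · by_contra hcon
          have h6 : b % 3 = 0 := by omega
          apply hne
          have h7 : ¬ 3 ∣ ((m : ℤ) - b ^ 2).toNat := by
            intro h
            have h7 : (3 : ℤ) ∣ (m : ℤ) - b ^ 2 := by
              rw [← hEE]
              exact_mod_cast h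
            have : b ^ 2 % 3 = 0 := by rw [sq, Int.mul_emod, h6]; norm_num
            omega
          rw [loc3, Nat.factorization_eq_zero_of_not_dvd h7]
          simp
        · by_contra hcon
          push Not at hcon
          apply hne
          have h7 : ¬ 5 ∣ ((m : ℤ) - b ^ 2).toNat := by
            intro h
            have h7 : (5 : ℤ) ∣ (m : ℤ) - b ^ 2 := by
              rw [← hEE]
              exact_mod_cast h
            have h8 : r = 1 ∨ r = 2 := by omega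
            have h9 : b % 5 = 0 ∨ b % 5 = 1 ∨ b % 5 = 2 ∨ b % 5 = 3 ∨ b % 5 = 4 := by omega
            rcases h9 with h9 | h9 | h9 | h9 | h9
            · have : b ^ 2 % 5 = 0 := by rw [sq, Int.mul_emod, h9]; norm_num
              omega
            · have : b ^ 2 % 5 = 1 := by rw [sq, Int.mul_emod, h9]; norm_num
              rcases h8 with rfl | rfl <;> omega
            · have : b ^ 2 % 5 = 4 := by rw [sq, Int.mul_emod, h9]; norm_num
              rcases h8 with rfl | rfl <;> omega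
            · have : b ^ 2 % 5 = 4 := by rw [sq, Int.mul_emod, h9]; norm_num
              rcases h8 with rfl | rfl <;> omega
            · have : b ^ 2 % 5 = 1 := by rw [sq, Int.mul_emod, h9]; norm_num
              rcases h8 with rfl | rfl <;> omega
          exact loc3_zero_5 h7
    rw [Finset.sum_comm, Finset.sum_congr rfl hv, ← Finset.mul_sum, Finset.sum_comm,
      Finset.mul_sum]
    refine Finset.dvd_sum fun b hb' => ?_
    rw [Finset.mem_filter] at hb'
    exact (hloc b hb'.1).2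
  have hfin : (2 : ℤ) ^ A.primeFactors.card ∣ ∑ b ∈ Ioo (0 : ℤ) B,
      (fun b : ℤ => ∑ d ∈ A.divisors.filter (fun d => d % 4 = 1),
        loc (3 * d) (9 * ((m : ℤ) - b ^ 2).toNat)) b := by
    have e5 : ∑ b ∈ Ioo (0 : ℤ) B,
      (fun b : ℤ => ∑ d ∈ A.divisors.filter (fun d => d % 4 = 1),
        loc (3 * d) (9 * ((m : ℤ) - b ^ 2).toNat)) b =
        ∑ b ∈ Ioo (0 : ℤ) B, (∑ d ∈ A.divisors.filter (fun d => d % 4 = 1),
          loc (3 * d) (9 * ((m : ℤ) - b ^ 2).toNat) -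
          2 * ∑ d ∈ P, loc3 d ((m : ℤ) - b ^ 2).toNat) +
        2 * ∑ b ∈ Ioo (0 : ℤ) B, ∑ d ∈ P, loc3 d ((m : ℤ) - b ^ 2).toNat := by
      rw [Finset.mul_sum, ← Finset.sum_add_distrib]
      refine Finset.sum_congr rfl fun b _ => ?_
      ring
    rw [e5]
    refine dvd_add (Finset.dvd_sum fun b hb' => ?_) hred
    refine (hloc b ?_).1
    rw [Finset.mem_Ioo] at hb' ⊢
    omega
  obtain ⟨c', hc'⟩ := hfin
  rw [hc', pow_add]
  exact ⟨3 * c', by ring⟩

/-- the divisibility for the mixed relation -/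
theorem core32 (hPC : S_PC) {c A n : ℕ} (h : Dat c A n) (h3 : n % 3 = 2)
    (h5 : ¬ 5 ∣ n) :
    (2 : ℤ) ^ (A.primeFactors.card + 2) ∣
      ∑ d ∈ A.divisors.filter (fun d => d % 4 = 1), (cp0 (3 * d : ℕ) (n / d : ℕ) : ℤ) +
      ∑ d ∈ A.divisors.filter (fun d => d % 4 = 3), (cp0 (d : ℕ) (3 * (n / d) : ℕ) : ℤ) := by
  have h3' : ¬ 3 ∣ n := by omega
  have hPP := h.PP h3' h5
  have hs := h.hs
  set B : ℕ := Nat.sqrt (n / 3) + 1 with hB
  have hB1 : n < 3 * B ^ 2 := by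
    have := Nat.lt_succ_sqrt' (n / 3)
    rw [Nat.succ_eq_add_one, ← hB] at this
    omega
  have hb : ∀ b : ℤ, b ∈ Ioo (-(B : ℤ)) B → 0 < 3 * (n : ℤ) - (3 * b) ^ 2 := by
    intro b hb
    rw [Finset.mem_Ioo] at hb
    have h4 : |b| ≤ Nat.sqrt (n / 3) := by
      rw [abs_le]
      constructor <;> omega
    have h5 : b ^ 2 ≤ ((Nat.sqrt (n / 3) ^ 2 : ℕ) : ℤ) := by
      rw [← sq_abs]
      push_cast
      exact pow_le_pow_left₀ (abs_nonneg _) h4 2
    have h6 : ((Nat.sqrt (n / 3) ^ 2 : ℕ) : ℤ) ≤ ((n / 3 : ℕ) : ℤ) := by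
      exact_mod_cast Nat.sqrt_le' (n / 3)
    have h7 : 3 * b ^ 2 ≤ n := by omega
    have h8 : 3 * b ^ 2 ≠ n := by omega
    have h9 : 3 * b ^ 2 < n := lt_of_le_of_ne h7 h8
    nlinarith
  have key : ∀ d ∈ A.divisors.filter (fun d => d % 4 = 1),
      (cp0 (3 * d : ℕ) (n / d : ℕ) : ℤ) =
      ∑ b ∈ Ioo (-(B : ℤ)) B, 6 * loc (3 * d) (3 * (n : ℤ) - (3 * b) ^ 2).toNat := by
    intro d hd
    rw [Finset.mem_filter, Nat.mem_divisors] at hd
    obtain ⟨⟨hdA, hn0⟩, hd4⟩ := hd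
    have hdn := (h.dvd hdA).1
    have e1 : d * (n / d) = n := Nat.mul_div_cancel' hdn
    have e2 : 3 * d * (n / d) = 3 * n := by rw [mul_assoc, e1]
    rw [cp0_sum (B := B) (by rw [e2]; omega)]
    refine Finset.sum_congr rfl fun b hb' => ?_
    have hpos := hb b hb'
    refine hPC (3 * d) (n / d) (3 * b) _ ?_ (by omega) ?_ ?_ ?_
    · rw [Nat.squarefree_mul_iff]
      refine ⟨?_, Nat.prime_three.squarefree, hs.squarefree_of_dvd hdA⟩
      exact (Nat.Prime.coprime_iff_not_dvd Nat.prime_three).2 fun h => h3' (h.trans hdn)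
    · intro h
      rcases (Nat.Prime.dvd_mul Nat.prime_five).1 h with h | h
      · omega
      · exact h5 (h.trans hdn)
    · omega
    · rw [Int.toNat_of_nonneg hpos.le]
      have : ((3 * d : ℕ) : ℤ) * ((n / d : ℕ) : ℤ) = 3 * (n : ℤ) := by exact_mod_cast e2
      rw [this]
  have key' : ∀ d ∈ A.divisors.filter (fun d => d % 4 = 3),
      (cp0 (d : ℕ) (3 * (n / d) : ℕ) : ℤ) =
      ∑ b ∈ Ioo (-(B : ℤ)) B, 6 * loc d (3 * (n : ℤ) - (3 * b) ^ 2).toNat := by
    intro d hd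
    rw [Finset.mem_filter, Nat.mem_divisors] at hd
    obtain ⟨⟨hdA, hn0⟩, hd4⟩ := hd
    have hdn := (h.dvd hdA).1
    have e1 : d * (n / d) = n := Nat.mul_div_cancel' hdn
    have e2 : d * (3 * (n / d)) = 3 * n := by
      calc d * (3 * (n / d)) = 3 * (d * (n / d)) := by ring
        _ = 3 * n := by rw [e1]
    rw [cp0_sum (B := B) (by rw [e2]; omega)]
    refine Finset.sum_congr rfl fun b hb' => ?_
    have hpos := hb b hb'
    refine hPC d (3 * (n / d)) (3 * b) _ (hs.squarefree_of_dvd hdA) hd4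
      (fun h => h5 (h.trans hdn)) ?_ ?_
    · omega
    · rw [Int.toNat_of_nonneg hpos.le]
      have : (d : ℤ) * ((3 * (n / d) : ℕ) : ℤ) = 3 * (n : ℤ) := by exact_mod_cast e2
      rw [this]
  rw [Finset.sum_congr rfl key, Finset.sum_congr rfl key', Finset.sum_comm,
    Finset.sum_comm (s := A.divisors.filter (fun d => d % 4 = 3)), ← Finset.sum_add_distrib]
  have e3 : ∀ b ∈ Ioo (-(B : ℤ)) B, (∑ d ∈ A.divisors.filter (fun d => d % 4 = 1),
      6 * loc (3 * d) (3 * (n : ℤ) - (3 * b) ^ 2).toNat +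
      ∑ d ∈ A.divisors.filter (fun d => d % 4 = 3),
      6 * loc d (3 * (n : ℤ) - (3 * b) ^ 2).toNat) = 6 *
      (fun b : ℤ => ∑ d ∈ A.divisors.filter (fun d => d % 4 = 1),
        loc (3 * d) (3 * (n : ℤ) - (3 * b) ^ 2).toNat +
        ∑ d ∈ A.divisors.filter (fun d => d % 4 = 3),
        loc d (3 * (n : ℤ) - (3 * b) ^ 2).toNat) b := by
    intro b _
    simp only
    rw [mul_add, Finset.mul_sum, Finset.mul_sum]
  rw [Finset.sum_congr rfl e3, ← Finset.mul_sum, sum_symm]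
  · have hdiv : (2 : ℤ) ^ A.primeFactors.card ∣ ∑ b ∈ Ioo (0 : ℤ) B,
        (fun b : ℤ => ∑ d ∈ A.divisors.filter (fun d => d % 4 = 1),
          loc (3 * d) (3 * (n : ℤ) - (3 * b) ^ 2).toNat +
          ∑ d ∈ A.divisors.filter (fun d => d % 4 = 3),
          loc d (3 * (n : ℤ) - (3 * b) ^ 2).toNat) b := by
      refine Finset.dvd_sum fun b hb' => ?_
      have hb'' : b ∈ Ioo (-(B : ℤ)) B := by
        rw [Finset.mem_Ioo] at hb' ⊢
        omega
      have hpos := hb b hb''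
      set D := (3 * (n : ℤ) - (3 * b) ^ 2).toNat with hD
      have hDD : (D : ℤ) = 3 * (n : ℤ) - (3 * b) ^ 2 := Int.toNat_of_nonneg hpos.le
      have hD0 : 0 < D := by omega
      have e4 : (D : ℤ) = 3 * ((n : ℤ) - 3 * b ^ 2) := by rw [hDD]; ring
      have h3D : 3 ∣ D := by
        have : (3 : ℤ) ∣ (D : ℤ) := ⟨_, e4⟩
        exact_mod_cast this
      have e5 : ((D / 3 : ℕ) : ℤ) = (n : ℤ) - 3 * b ^ 2 := by
        push_cast
        rw [e4, Int.mul_ediv_cancel_left _ (by norm_num)]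
      have e6 : D / 3 % 3 = 2 := by omega
      rw [sum_div_filter hs (fun d => d % 4 = 1), sum_div_filter hs (fun d => d % 4 = 3)]
      refine key32 hPP hD0 (val_one h h3' h5 (q := 3) (b := 3 * b) (Or.inr (Or.inl rfl)) hD0.ne'
        (by rw [hDD]; push_cast; ring)) ?_ e6
      obtain ⟨E, hE⟩ := h3D
      have hE0 : E ≠ 0 := by rintro rfl; omega
      have hE3 : ¬ 3 ∣ E := by
        rw [hE, Nat.mul_div_cancel_left _ (by norm_num)] at e6
        omega
      rw [hE, Nat.factorization_mul (by norm_num) hE0, Finsupp.add_apply,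
        Nat.prime_three.factorization_self, Nat.factorization_eq_zero_of_not_dvd hE3]
    rw [pow_add]
    obtain ⟨c', hc'⟩ := hdiv
    rw [hc']
    exact ⟨3 * c', by ring⟩
  · intro b
    have : (3 * -b) ^ 2 = (3 * b) ^ 2 := by ring
    rw [this]
  · have h0 : ¬ 5 ∣ (3 * (n : ℤ) - (3 * 0) ^ 2).toNat := by omega
    rw [Finset.sum_eq_zero fun d _ => loc_zero_5 h0, Finset.sum_eq_zero fun d _ => loc_zero_5 h0]
    rfl

/-- **U33E** -/
theorem t_U33E (hPC : S_PC) (hR : S_REL22) (hC : S_CP3) : S_U33E := by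
  intro m hm
  obtain ⟨⟨a, rfl, hsa, ha4⟩, h3, h5⟩ := hm
  obtain ⟨c, A, h⟩ := dat_of hsa
  have hm0 := h.pos.ne'
  rw [split_div h _ 1 (Or.inl rfl)]
  have e1 : ∑ d ∈ A.divisors.filter (fun d => d % 4 = 1),
      (cp0 (3 * (4 * a / d) : ℕ) (3 * (4 * a / (4 * a / d)) : ℕ) : ℤ) =
      ∑ d ∈ A.divisors.filter (fun d => d % 4 = 1), (cp0 (3 * d : ℕ) (3 * (4 * a / d) : ℕ) : ℤ) := by
    refine Finset.sum_congr rfl fun d hd => ?_
    rw [Finset.mem_filter, Nat.mem_divisors] at hd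
    rw [Nat.div_div_self (h.dvd hd.1.1).1 hm0, cp0_comm]
  rw [e1, ← two_mul, h.card]
  have hnsq : ∀ b : ℤ, b ^ 2 ≠ ((4 * a : ℕ) : ℤ) := by
    intro b hb
    have h2b : (2 : ℤ) ∣ b := by
      have : (2 : ℤ) ∣ b ^ 2 := by rw [hb]; push_cast; exact ⟨2 * a, by ring⟩
      exact Int.prime_two.dvd_of_dvd_pow this
    obtain ⟨x, rfl⟩ := h2b
    have h6 : x ^ 2 = (a : ℤ) := by push_cast at hb; linarith
    have h7 : x.natAbs * x.natAbs = a := by
      have : ((x.natAbs * x.natAbs : ℕ) : ℤ) = a := by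
        push_cast
        rw [← h6, ← sq, sq_abs]
      exact_mod_cast this
    have h8 := Nat.isUnit_iff.1 (hsa x.natAbs (by rw [h7]))
    rw [h8] at h7
    omega
  have := core33 hPC hR hC h h3 h5 hnsq
  rw [show A.primeFactors.card + 1 + 2 = (A.primeFactors.card + 2) + 1 by ring, pow_succ,
    mul_comm ((2 : ℤ) ^ _) 2]
  exact mul_dvd_mul_left 2 this

/-- **U32E** -/
theorem t_U32E (hPC : S_PC) : S_U32E := by
  intro n hn
  obtain ⟨⟨a, rfl, hsa, ha4⟩, h3, h5⟩ := hn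
  obtain ⟨c, A, h⟩ := dat_of hsa
  have hm0 := h.pos.ne'
  rw [split_div h _ 3 (Or.inr rfl)]
  have e1 : ∑ d ∈ A.divisors.filter (fun d => d % 4 = 3),
      (cp0 (3 * (4 * a / d) : ℕ) (4 * a / (4 * a / d) : ℕ) : ℤ) =
      ∑ d ∈ A.divisors.filter (fun d => d % 4 = 3), (cp0 (d : ℕ) (3 * (4 * a / d) : ℕ) : ℤ) := by
    refine Finset.sum_congr rfl fun d hd => ?_
    rw [Finset.mem_filter, Nat.mem_divisors] at hd
    rw [Nat.div_div_self (h.dvd hd.1.1).1 hm0, cp0_comm]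
  rw [e1, h.card]
  exact core32 hPC h h3 (by omega)

end Pool.Agent.N218.P15
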